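import Mathlib

open Finset

namespace Pool.Agent.Results.MP_23196e_co.InfiniteChromatic

open Classical in
/-- sequences of length `w` in `U` with no two terms related (in increasing index order) -/
noncomputable def indepSeqs {V : Type} [Fintype V] (adj : V → V → Prop) (w : ℕ) (U : Finset V) :
    Finset (Fin w → V) :=
  univ.filter (fun y => (∀ i, y i ∈ U) ∧ ∀ i j, i < j → ¬ adj (y i) (y j))

open Classical in
lemma card_indepSeqs_succ {V : Type} [Fintype V] (adj : V → V → Prop) (w : ℕ) (U : Finset V) :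
    (indepSeqs adj (w+1) U).card ≤
      ∑ x ∈ U, (indepSeqs adj w (U.filter (fun y => ¬ adj x y))).card := by
  have h1 : ∀ y ∈ indepSeqs adj (w+1) U, y 0 ∈ U := by
    intro y hy
    simp only [indepSeqs, mem_filter, mem_univ, true_and] at hy
    exact hy.1 0
  rw [Finset.card_eq_sum_card_fiberwise h1]
  apply Finset.sum_le_sum
  intro x hx
  apply Finset.card_le_card_of_injOn (fun y => Fin.tail y)
  · intro y hy
    simp only [coe_filter, Set.mem_ofPred_eq, indepSeqs, mem_filter, mem_univ, true_and] at hy ⊢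
    obtain ⟨⟨h1, h2⟩, h3⟩ := hy
    refine ⟨fun i => ⟨h1 _, ?_⟩, fun i j hij => ?_⟩
    · have := h2 0 i.succ (Fin.succ_pos i)
      rw [h3] at this
      exact this
    · exact h2 i.succ j.succ (Fin.succ_lt_succ_iff.mpr hij)
  · intro y hy z hz hyz
    simp only [coe_filter, Set.mem_ofPred_eq] at hy hz
    have : y 0 = z 0 := by rw [hy.2, hz.2]
    rw [← Fin.cons_self_tail y, ← Fin.cons_self_tail z]
    simp only at hyz
    rw [hyz, this]

open Classical in
lemma indep_count {V : Type} [Fintype V] (adj : V → V → Prop) (b D n : ℕ) (hb : 1 ≤ b)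
    (hD : 0 < D) (hn : Fintype.card V ≤ n)
    (hlow : ∀ U : Finset V,
      b * (U.filter (fun x => (U.filter (fun y => adj x y)).card < D)).card ≤ n) :
    ∀ (w g : ℕ) (U : Finset V), U.card ≤ g * D →
      (indepSeqs adj w U).card * b^(w-g) ≤ (2*n)^w := by
  intro w
  induction w with
  | zero =>
    intro g U _
    have h1 : (indepSeqs adj 0 U).card ≤ 1 := by
      calc (indepSeqs adj 0 U).card ≤ (univ : Finset (Fin 0 → V)).card := card_le_univ _
        _ = 1 := by simp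
    simpa using h1
  | succ w ih =>
    intro g U hU
    set L := U.filter (fun x => (U.filter (fun y => adj x y)).card < D) with hL
    have hstep := card_indepSeqs_succ adj w U
    have hsplit : ∑ x ∈ U, (indepSeqs adj w (U.filter (fun y => ¬ adj x y))).card * b^(w+1-g)
        ≤ ∑ x ∈ L, b * (2*n)^w + ∑ x ∈ U \ L, (2*n)^w := by
      have hLU : L ⊆ U := filter_subset _ _
      rw [← Finset.sum_sdiff hLU, add_comm]
      apply Nat.add_le_add
      · apply Finset.sum_le_sum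
        intro x hx
        have h1 := ih g (U.filter (fun y => ¬ adj x y))
          (le_trans (card_le_card (filter_subset _ _)) hU)
        have h2 : b^(w+1-g) ≤ b * b^(w-g) := by
          rw [← pow_succ']
          exact Nat.pow_le_pow_right hb (by omega)
        calc _ ≤ (indepSeqs adj w (U.filter (fun y => ¬ adj x y))).card * (b * b^(w-g)) :=
              Nat.mul_le_mul_left _ h2
          _ = b * ((indepSeqs adj w (U.filter (fun y => ¬ adj x y))).card * b^(w-g)) := by ring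
          _ ≤ b * (2*n)^w := Nat.mul_le_mul_left _ h1
      · apply Finset.sum_le_sum
        intro x hx
        rw [mem_sdiff, hL, mem_filter] at hx
        obtain ⟨hxU, hx2⟩ := hx
        have hx3 : D ≤ (U.filter (fun y => adj x y)).card := by
          by_contra hcon
          exact hx2 ⟨hxU, by omega⟩
        have hsum := Finset.card_filter_add_card_filter_not (s := U) (fun y => adj x y)
        have hg : 1 ≤ g := by
          rcases Nat.eq_zero_or_pos g with h0 | h0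
          · subst h0
            have : U.card = 0 := by simpa using hU
            omega
          · exact h0
        have hgD : (g-1)*D + D = g * D := by
          obtain ⟨g', rfl⟩ : ∃ g', g = g' + 1 := ⟨g-1, by omega⟩
          simp; ring
        have h1 := ih (g-1) (U.filter (fun y => ¬ adj x y)) (by omega)
        have h2 : w - (g-1) = w + 1 - g := by omega
        rw [h2] at h1
        exact h1
    calc (indepSeqs adj (w+1) U).card * b^(w+1-g)
        ≤ (∑ x ∈ U, (indepSeqs adj w (U.filter (fun y => ¬ adj x y))).card) * b^(w+1-g) :=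
          Nat.mul_le_mul_right _ hstep
      _ = ∑ x ∈ U, (indepSeqs adj w (U.filter (fun y => ¬ adj x y))).card * b^(w+1-g) := by
          rw [Finset.sum_mul]
      _ ≤ ∑ x ∈ L, b * (2*n)^w + ∑ x ∈ U \ L, (2*n)^w := hsplit
      _ = (b * L.card) * (2*n)^w + (U \ L).card * (2*n)^w := by
          simp only [sum_const, smul_eq_mul]; ring
      _ ≤ n * (2*n)^w + n * (2*n)^w := by
          apply Nat.add_le_add
          · exact Nat.mul_le_mul_right _ (hlow U)
          · exact Nat.mul_le_mul_right _ (le_trans (card_le_univ _) hn)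
      _ = (2*n)^(w+1) := by ring

/-- agreeing off the coordinate `j` -/
def Line {r M : ℕ} (j : Fin r) (x y : Fin r → Fin M) : Prop := ∀ i, i ≠ j → x i = y i

/-- differing in exactly one coordinate -/
def Adj {r M : ℕ} (x y : Fin r → Fin M) : Prop := x ≠ y ∧ ∃ j, Line j x y

open Classical in
lemma low_card {r M : ℕ} (U : Finset (Fin r → Fin M)) (D : ℕ) :
    r * (U.filter (fun x => (U.filter (fun y => Adj x y)).card < D)).card ≤ M^(r-1) * (r + D) := by
  set B := U.filter (fun x => (U.filter (fun y => Adj x y)).card < D) with hB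
  have hdeg : ∀ x ∈ B, (B.filter (fun y => Adj x y)).card ≤ D := by
    intro x hx
    rw [hB, mem_filter] at hx
    have : (B.filter (fun y => Adj x y)) ⊆ (U.filter (fun y => Adj x y)) := by
      apply filter_subset_filter
      exact filter_subset _ _
    exact le_trans (card_le_card this) (le_of_lt hx.2)
  have hcs : ∀ j : Fin r, B.card^2 ≤ M^(r-1) * ∑ x ∈ B, (B.filter (fun y => Line j x y)).card := by
    intro j
    let π : (Fin r → Fin M) → ({i : Fin r // i ≠ j} → Fin M) := fun x i => x i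
    have hπ : ∀ x y, Line j x y ↔ π y = π x := by
      intro x y
      constructor
      · intro h
        funext i
        exact (h i.1 i.2).symm
      · intro h i hi
        exact (congrFun h ⟨i, hi⟩).symm
    have h1 : B.card = ∑ c : ({i : Fin r // i ≠ j} → Fin M), (B.filter (fun y => π y = c)).card := by
      exact Finset.card_eq_sum_card_fiberwise (fun x _ => mem_coe.2 (mem_univ _))
    have h2 : ∑ x ∈ B, (B.filter (fun y => Line j x y)).card
        = ∑ c : ({i : Fin r // i ≠ j} → Fin M), (B.filter (fun y => π y = c)).card^2 := by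
      rw [← Finset.sum_fiberwise B π]
      apply Finset.sum_congr rfl
      intro c _
      rw [sq, ← smul_eq_mul, ← Finset.sum_const]
      apply Finset.sum_congr rfl
      intro x hx
      rw [mem_filter] at hx
      congr 1
      apply Finset.filter_congr
      intro y _
      rw [hπ, hx.2]
    have h3 : Fintype.card ({i : Fin r // i ≠ j} → Fin M) = M^(r-1) := by
      simp [Fintype.card_subtype_compl]
    rw [h2, h1]
    have h4 := sq_sum_le_card_mul_sum_sq (s := (univ : Finset ({i : Fin r // i ≠ j} → Fin M)))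
      (f := fun c => (B.filter (fun y => π y = c)).card)
    rw [card_univ, h3] at h4
    exact h4
  have hsumj : ∀ x ∈ B, ∑ j : Fin r, (B.filter (fun y => Line j x y)).card ≤ r + D := by
    intro x hx
    have h1 : ∀ j : Fin r, (B.filter (fun y => Line j x y)).card
        ≤ 1 + (B.filter (fun y => y ≠ x ∧ Line j x y)).card := by
      intro j
      have : (B.filter (fun y => Line j x y)) ⊆ {x} ∪ (B.filter (fun y => y ≠ x ∧ Line j x y)) := by
        intro y hy
        rw [mem_filter] at hy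
        rw [mem_union, mem_singleton, mem_filter]
        by_cases hyx : y = x
        · left; exact hyx
        · right; exact ⟨hy.1, hyx, hy.2⟩
      calc _ ≤ ({x} ∪ (B.filter (fun y => y ≠ x ∧ Line j x y))).card := card_le_card this
        _ ≤ _ := card_union_le _ _
    have h2 : ∑ j : Fin r, (B.filter (fun y => y ≠ x ∧ Line j x y)).card
        ≤ (B.filter (fun y => Adj x y)).card := by
      rw [← Finset.card_biUnion]
      · apply card_le_card
        intro y hy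
        rw [mem_biUnion] at hy
        obtain ⟨j, _, hy⟩ := hy
        rw [mem_filter] at hy ⊢
        exact ⟨hy.1, fun h => hy.2.1 h.symm, j, hy.2.2⟩
      · intro j _ j' _ hjj'
        rw [Function.onFun, Finset.disjoint_left]
        intro y hy hy'
        rw [mem_filter] at hy hy'
        apply hy.2.1
        funext i
        by_cases hi : i = j
        · exact (hy'.2.2 i (by rw [hi]; exact hjj')).symm
        · exact (hy.2.2 i hi).symm
    calc _ ≤ ∑ j : Fin r, (1 + (B.filter (fun y => y ≠ x ∧ Line j x y)).card) :=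
          Finset.sum_le_sum (fun j _ => h1 j)
      _ = r + ∑ j : Fin r, (B.filter (fun y => y ≠ x ∧ Line j x y)).card := by
          rw [Finset.sum_add_distrib]; simp
      _ ≤ r + D := Nat.add_le_add_left (le_trans h2 (hdeg x hx)) _
  rcases Nat.eq_zero_or_pos B.card with h0 | hpos
  · rw [h0]; simp
  · have h5 : r * B.card^2 ≤ M^(r-1) * (B.card * (r + D)) := by
      calc r * B.card^2 = ∑ _j : Fin r, B.card^2 := by simp
        _ ≤ ∑ j : Fin r, M^(r-1) * ∑ x ∈ B, (B.filter (fun y => Line j x y)).card :=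
            Finset.sum_le_sum (fun j _ => hcs j)
        _ = M^(r-1) * ∑ x ∈ B, ∑ j : Fin r, (B.filter (fun y => Line j x y)).card := by
            rw [← Finset.mul_sum, Finset.sum_comm]
        _ ≤ M^(r-1) * ∑ x ∈ B, (r + D) :=
            Nat.mul_le_mul_left _ (Finset.sum_le_sum hsumj)
        _ = M^(r-1) * (B.card * (r + D)) := by simp
    have h6 : (r * B.card) * B.card ≤ (M^(r-1) * (r + D)) * B.card := by
      calc _ = r * B.card^2 := by ring
        _ ≤ _ := h5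
        _ = _ := by ring
    exact Nat.le_of_mul_le_mul_right h6 hpos


open Classical in
lemma card_comp {V : Type} [Fintype V] {w m : ℕ} (e : Fin w → Fin m) (he : Function.Injective e)
    (R : (Fin w → V) → Prop) :
    (univ.filter (fun s : Fin m → V => R (fun i => s (e i)))).card * (Fintype.card V)^w
      = (univ.filter R).card * (Fintype.card V)^m := by
  let p : Fin m → Prop := fun i => i ∈ Set.range e
  let Φ : (Fin m → V) ≃ (Fin w → V) × ({i : Fin m // ¬ p i} → V) :=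
    (Equiv.piEquivPiSubtypeProd p (fun _ => V)).trans
      (Equiv.prodCongr (Equiv.arrowCongr (Equiv.ofInjective e he).symm (Equiv.refl V))
        (Equiv.refl _))
  have hΦ : ∀ s, (Φ s).1 = fun i => s (e i) := by
    intro s
    funext i
    rfl
  have h1 : (univ.filter (fun s : Fin m → V => R (fun i => s (e i)))).card
      = ((univ.filter R) ×ˢ (univ : Finset ({i : Fin m // ¬ p i} → V))).card := by
    apply Finset.card_equiv Φ
    intro s
    simp only [mem_filter, mem_univ, true_and, mem_product, and_true]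
    rw [hΦ]
  have hw : w ≤ m := by
    simpa using Fintype.card_le_of_injective e he
  have h2 : Fintype.card ({i : Fin m // ¬ p i} → V) = (Fintype.card V)^(m - w) := by
    rw [Fintype.card_fun]
    congr 1
    rw [Fintype.card_subtype_compl]
    congr 1
    · simp
    · have := Fintype.card_congr (Equiv.ofInjective e he)
      rw [Fintype.card_fin] at this
      exact this.symm
  rw [h1, card_product, card_univ, h2, mul_assoc, ← pow_add]
  congr 2
  omega

/-- the three values share a line in direction `j` -/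
def OnLine3 {r M : ℕ} (j : Fin r) (y : Fin 3 → (Fin r → Fin M)) : Prop :=
  Line j (y 0) (y 1) ∧ Line j (y 0) (y 2)

open Classical in
/-- The set of indices lying in a triple of indices whose values share a line. -/
noncomputable def badSet {r M m : ℕ} (s : Fin m → (Fin r → Fin M)) : Finset (Fin m) :=
  univ.filter (fun i => ∃ i' i'' : Fin m, ∃ j : Fin r, i ≠ i' ∧ i ≠ i'' ∧ i' ≠ i'' ∧
    Line j (s i) (s i') ∧ Line j (s i) (s i''))

open Classical in
lemma line_triples {r M : ℕ} (j : Fin r) :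
    (univ.filter (fun y : Fin 3 → (Fin r → Fin M) => OnLine3 j y)).card
      ≤ M^r * M^2 := by
  have h1 : (univ : Finset ((Fin r → Fin M) × (Fin M × Fin M))).card = M^r * M^2 := by
    simp [sq]
  rw [← h1]
  apply Finset.card_le_card_of_injOn (fun y => (y 0, (y 1 j, y 2 j)))
  · intro y _
    simp
  · intro y hy z hz hyz
    rw [mem_coe, mem_filter] at hy hz
    replace hy := hy.2
    replace hz := hz.2
    simp only [Prod.mk.injEq] at hyz
    obtain ⟨h0, h1, h2⟩ := hyz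
    have e1 : y 1 = z 1 := by
      funext i
      by_cases hi : i = j
      · rw [hi]; exact h1
      · rw [← hy.1 i hi, ← hz.1 i hi, h0]
    have e2 : y 2 = z 2 := by
      funext i
      by_cases hi : i = j
      · rw [hi]; exact h2
      · rw [← hy.2 i hi, ← hz.2 i hi, h0]
    funext i
    fin_cases i
    · exact h0
    · exact e1
    · exact e2

lemma nat_aux (C R P N Q : ℕ) (hP : 0 < P) (h3 : C * P^3 = R * Q) (h4 : R ≤ P * N) :
    P^2 * C ≤ N * Q := by
  apply Nat.le_of_mul_le_mul_right _ hP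
  calc P^2 * C * P = C * P^3 := by ring
    _ = R * Q := h3
    _ ≤ (P * N) * Q := Nat.mul_le_mul_right _ h4
    _ = N * Q * P := by ring

open Classical in
lemma sum_badSet {r M m : ℕ} (hM : 0 < M) :
    (M^r)^2 * ∑ s : Fin m → (Fin r → Fin M), (badSet s).card ≤ m^3 * r * M^2 * (M^r)^m := by
  have h1 : ∀ s : Fin m → (Fin r → Fin M), (badSet s).card ≤
      ∑ q : (Fin m × Fin m × Fin m) × Fin r,
        if (q.1.1 ≠ q.1.2.1 ∧ q.1.1 ≠ q.1.2.2 ∧ q.1.2.1 ≠ q.1.2.2 ∧
          Line q.2 (s q.1.1) (s q.1.2.1) ∧ Line q.2 (s q.1.1) (s q.1.2.2)) then 1 else 0 := by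
    intro s
    rw [← Finset.card_filter]
    have : badSet s ⊆ (univ.filter (fun q : (Fin m × Fin m × Fin m) × Fin r =>
      (q.1.1 ≠ q.1.2.1 ∧ q.1.1 ≠ q.1.2.2 ∧ q.1.2.1 ≠ q.1.2.2 ∧
          Line q.2 (s q.1.1) (s q.1.2.1) ∧ Line q.2 (s q.1.1) (s q.1.2.2)))).image
            (fun q => q.1.1) := by
      intro i hi
      rw [badSet, mem_filter] at hi
      obtain ⟨_, i', i'', j, h⟩ := hi
      rw [mem_image]
      exact ⟨((i, i', i''), j), by rw [mem_filter]; exact ⟨mem_univ _, h⟩, rfl⟩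
    exact le_trans (card_le_card this) card_image_le
  have h2 : ∀ q : (Fin m × Fin m × Fin m) × Fin r,
      (M^r)^2 * (∑ s : Fin m → (Fin r → Fin M), if (q.1.1 ≠ q.1.2.1 ∧ q.1.1 ≠ q.1.2.2 ∧
        q.1.2.1 ≠ q.1.2.2 ∧
          Line q.2 (s q.1.1) (s q.1.2.1) ∧ Line q.2 (s q.1.1) (s q.1.2.2)) then 1 else 0)
        ≤ M^2 * (M^r)^m := by
    rintro ⟨⟨a, b, c⟩, j⟩
    simp only
    by_cases hd : a ≠ b ∧ a ≠ c ∧ b ≠ c
    · obtain ⟨hab, hac, hbc⟩ := hd
      let e : Fin 3 → Fin m := ![a, b, c]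
      have he : Function.Injective e := by
        intro x y hxy
        fin_cases x <;> fin_cases y <;> simp_all [e]
      have h3 := card_comp (V := Fin r → Fin M) e he (OnLine3 (M := M) j)
      have h4 := line_triples (M := M) j
      have hcard : Fintype.card (Fin r → Fin M) = M^r := by simp
      rw [hcard] at h3
      have h5 : (∑ s : Fin m → (Fin r → Fin M), if (a ≠ b ∧ a ≠ c ∧
        b ≠ c ∧ Line j (s a) (s b) ∧ Line j (s a) (s c)) then 1 else 0) =
        (univ.filter (fun s : Fin m → (Fin r → Fin M) => OnLine3 j (fun i => s (e i)))).card := by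
        rw [Finset.card_filter]
        apply Finset.sum_congr rfl
        intro s _
        have : (a ≠ b ∧ a ≠ c ∧ b ≠ c ∧ Line j (s a) (s b) ∧ Line j (s a) (s c)) ↔
          OnLine3 j (fun i => s (e i)) := ⟨fun h => h.2.2.2, fun h => ⟨hab, hac, hbc, h⟩⟩
        by_cases h6 : OnLine3 j (fun i => s (e i))
        · rw [if_pos h6, if_pos (this.2 h6)]
        · rw [if_neg h6, if_neg (fun h => h6 (this.1 h))]
      rw [h5]
      exact nat_aux _ _ _ _ _ (Nat.pow_pos hM) h3 h4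
    · have : ∀ s : Fin m → (Fin r → Fin M), ¬ (a ≠ b ∧ a ≠ c ∧
        b ≠ c ∧ Line j (s a) (s b) ∧ Line j (s a) (s c)) := by
        intro s h
        exact hd ⟨h.1, h.2.1, h.2.2.1⟩
      simp only [this, if_false, sum_const_zero, mul_zero]
      exact Nat.zero_le _
  calc (M^r)^2 * ∑ s : Fin m → (Fin r → Fin M), (badSet s).card
      ≤ (M^r)^2 * ∑ s : Fin m → (Fin r → Fin M), ∑ q : (Fin m × Fin m × Fin m) × Fin r,
        (if (q.1.1 ≠ q.1.2.1 ∧ q.1.1 ≠ q.1.2.2 ∧ q.1.2.1 ≠ q.1.2.2 ∧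
          Line q.2 (s q.1.1) (s q.1.2.1) ∧ Line q.2 (s q.1.1) (s q.1.2.2)) then 1 else 0) :=
        Nat.mul_le_mul_left _ (Finset.sum_le_sum (fun s _ => h1 s))
    _ = ∑ q : (Fin m × Fin m × Fin m) × Fin r, (M^r)^2 *
        (∑ s : Fin m → (Fin r → Fin M), if (q.1.1 ≠ q.1.2.1 ∧ q.1.1 ≠ q.1.2.2 ∧
        q.1.2.1 ≠ q.1.2.2 ∧
          Line q.2 (s q.1.1) (s q.1.2.1) ∧ Line q.2 (s q.1.1) (s q.1.2.2)) then 1 else 0) := by
        rw [Finset.sum_comm, Finset.mul_sum]
    _ ≤ ∑ q : (Fin m × Fin m × Fin m) × Fin r, M^2 * (M^r)^m :=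
        Finset.sum_le_sum (fun q _ => h2 q)
    _ = m^3 * r * M^2 * (M^r)^m := by
        simp only [sum_const, card_univ, Fintype.card_prod, Fintype.card_fin, smul_eq_mul]
        ring

open Classical in
/-- combinatorial core: sparse non-`k`-colourable subset of a Hamming space -/
theorem core (k : ℕ) (hk : 1 ≤ k) : ∃ (r M : ℕ) (S : Finset (Fin r → Fin M)),
    (∀ j, ∀ x ∈ S, ∀ y ∈ S, ∀ z ∈ S, x ≠ y → x ≠ z → y ≠ z →
      Line j x y → Line j x z → False) ∧
    ∀ c : (Fin r → Fin M) → Fin k, ∃ x ∈ S, ∃ y ∈ S, Adj x y ∧ c x = c y := by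
  -- parameters
  obtain ⟨b, hb⟩ : ∃ b, b = 2^(4*k+4) := ⟨_, rfl⟩
  obtain ⟨M, hM⟩ : ∃ M, M = 2 * b := ⟨_, rfl⟩
  obtain ⟨r, hr⟩ : ∃ r, r = M^4 := ⟨_, rfl⟩
  obtain ⟨g, hg⟩ : ∃ g, g = M^(r-4) := ⟨_, rfl⟩
  obtain ⟨w, hw⟩ : ∃ w, w = 2 * g := ⟨_, rfl⟩
  obtain ⟨m, hm⟩ : ∃ m, m = 2 * k * w := ⟨_, rfl⟩
  obtain ⟨n, hn⟩ : ∃ n, n = M^r := ⟨_, rfl⟩
  have hbpos : 1 ≤ b := by rw [hb]; exact Nat.one_le_two_pow
  have hMpos : 0 < M := by omega
  have hM2 : 2 ≤ M := by omega
  have hr4 : 4 ≤ r := by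
    rw [hr]
    calc 4 ≤ 2^4 := by norm_num
      _ ≤ M^4 := Nat.pow_le_pow_left hM2 4
  have hrpos : 0 < r := by omega
  have hgpos : 0 < g := by rw [hg]; exact Nat.pow_pos hMpos
  have hnpos : 0 < n := by rw [hn]; exact Nat.pow_pos hMpos
  have hgD : n = g * r := by
    rw [hn, hg]
    calc M^r = M^(r-4+4) := by congr 1; omega
      _ = M^(r-4) * M^4 := pow_add _ _ _
      _ = M^(r-4) * r := by rw [hr]
  have hk8 : 8 * k < M := by
    have h1 : 4*k+4 < 2^(4*k+4) := Nat.lt_two_pow_self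
    rw [hM, hb]; omega
  have hcard : Fintype.card (Fin r → Fin M) = n := by rw [hn]; simp
  -- low degree sets
  have hlow : ∀ U : Finset (Fin r → Fin M),
      b * (U.filter (fun x => (U.filter (fun y => Adj x y)).card < r)).card ≤ n := by
    intro U
    have h1 := low_card U r
    have h2 : (U.filter (fun x => (U.filter (fun y => Adj x y)).card < r)).card
        ≤ 2 * M^(r-1) := by
      apply Nat.le_of_mul_le_mul_left _ hrpos
      calc _ ≤ _ := h1
        _ = _ := by ring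
    calc _ ≤ b * (2 * M^(r-1)) := Nat.mul_le_mul_left _ h2
      _ = M * M^(r-1) := by rw [hM]; ring
      _ = M^(r-1+1) := by rw [pow_succ']
      _ = n := by rw [hn]; congr 1; omega
  have hcount := indep_count (V := Fin r → Fin M) (fun x y => Adj x y) b r n hbpos hrpos
    (le_of_eq hcard) hlow w g univ (by rw [card_univ, hcard, hgD])
  have hwg : w - g = g := by omega
  rw [hwg] at hcount
  -- the two bad events
  let Bad1 : Finset (Fin m → (Fin r → Fin M)) := univ.filter (fun s => m ≤ 2 * (badSet s).card)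
  let Bad2 : Finset (Fin m → (Fin r → Fin M)) := univ.filter (fun s =>
    ∃ J ∈ powersetCard w (univ : Finset (Fin m)), ∀ i ∈ J, ∀ j ∈ J, i < j → ¬ Adj (s i) (s j))
  have hmpos : 0 < m := by
    rw [hm, hw]; positivity
  have hB1 : 2 * Bad1.card < n^m := by
    have h1 := sum_badSet (r := r) (M := M) (m := m) hMpos
    rw [← hn] at h1
    have h2 : Bad1.card * m ≤ 2 * ∑ s : Fin m → (Fin r → Fin M), (badSet s).card := by
      calc Bad1.card * m = ∑ s ∈ Bad1, m := by simp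
        _ ≤ ∑ s ∈ Bad1, 2 * (badSet s).card := by
            apply Finset.sum_le_sum
            intro s hs
            rw [mem_filter] at hs
            exact hs.2
        _ ≤ ∑ s : Fin m → (Fin r → Fin M), 2 * (badSet s).card :=
            Finset.sum_le_sum_of_subset (subset_univ _)
        _ = _ := by rw [Finset.mul_sum]
    have h3 : n^2 * Bad1.card * m ≤ (2 * m^2 * r * M^2 * n^m) * m := by
      calc n^2 * Bad1.card * m = n^2 * (Bad1.card * m) := by ring
        _ ≤ n^2 * (2 * ∑ s : Fin m → (Fin r → Fin M), (badSet s).card) :=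
            Nat.mul_le_mul_left _ h2
        _ = 2 * (n^2 * ∑ s : Fin m → (Fin r → Fin M), (badSet s).card) := by ring
        _ ≤ 2 * (m^3 * r * M^2 * n^m) := Nat.mul_le_mul_left _ h1
        _ = _ := by ring
    have h4 := Nat.le_of_mul_le_mul_right h3 hmpos
    -- 4 r m^2 M^2 < n^2
    have h5 : 4 * m^2 * r * M^2 < n^2 := by
      have hm' : m = 4 * k * g := by rw [hm, hw]; ring
      have e1 : 4 * m^2 * r * M^2 = (64 * k^2) * (g^2 * r * M^2) := by rw [hm']; ring
      have e2 : n^2 = (g^2 * r * M^2) * M^2 := by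
        rw [hgD]
        have : r^2 = r * (M^2 * M^2) := by
          rw [sq]; congr 1; rw [hr]; ring
        calc (g*r)^2 = g^2 * r^2 := by ring
          _ = g^2 * (r * (M^2*M^2)) := by rw [this]
          _ = _ := by ring
      rw [e1, e2, mul_comm (64*k^2)]
      apply Nat.mul_lt_mul_of_pos_left
      · nlinarith
      · positivity
    have h6 : n^2 * (2 * Bad1.card) < n^2 * n^m := by
      calc n^2 * (2 * Bad1.card) = 2 * (n^2 * Bad1.card) := by ring
        _ ≤ 2 * (2 * m^2 * r * M^2 * n^m) := Nat.mul_le_mul_left _ h4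
        _ = (4 * m^2 * r * M^2) * n^m := by ring
        _ < n^2 * n^m := Nat.mul_lt_mul_of_pos_right h5 (Nat.pow_pos hnpos)
    exact Nat.lt_of_mul_lt_mul_left h6
  have hB2 : 2 * Bad2.card < n^m := by
    -- for each J
    have hJ : ∀ J ∈ powersetCard w (univ : Finset (Fin m)),
        (univ.filter (fun s : Fin m → (Fin r → Fin M) =>
          ∀ i ∈ J, ∀ j ∈ J, i < j → ¬ Adj (s i) (s j))).card * n^w
          ≤ (indepSeqs (fun x y : Fin r → Fin M => Adj x y) w univ).card * n^m := by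
      intro J hJ
      rw [mem_powersetCard] at hJ
      let e := J.orderEmbOfFin hJ.2
      have h1 := card_comp (V := Fin r → Fin M) e e.injective
        (fun y => y ∈ indepSeqs (fun x y : Fin r → Fin M => Adj x y) w univ)
      rw [hcard] at h1
      refine le_trans ?_ (le_of_eq (h1.trans ?_))
      swap
      · congr 2
        ext y
        simp only [mem_filter, mem_univ, true_and]
      apply Nat.mul_le_mul_right
      apply card_le_card
      intro s hs
      simp only [mem_filter, mem_univ, true_and, indepSeqs, implies_true] at hs ⊢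
      intro i j hij
      exact hs (e i) (J.orderEmbOfFin_mem hJ.2 i) (e j) (J.orderEmbOfFin_mem hJ.2 j)
        (e.strictMono hij)
    have h2 : Bad2.card * n^w ≤ 2^m * ((indepSeqs (fun x y : Fin r → Fin M => Adj x y) w univ).card
        * n^m) := by
      have hsub : Bad2 ⊆ (powersetCard w (univ : Finset (Fin m))).biUnion (fun J =>
        (univ.filter (fun s : Fin m → (Fin r → Fin M) =>
          ∀ i ∈ J, ∀ j ∈ J, i < j → ¬ Adj (s i) (s j)))) := by
        intro s hs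
        rw [mem_filter] at hs
        obtain ⟨_, J, hJ, h⟩ := hs
        rw [mem_biUnion]
        exact ⟨J, hJ, by rw [mem_filter]; exact ⟨mem_univ _, h⟩⟩
      calc Bad2.card * n^w ≤ (∑ J ∈ powersetCard w (univ : Finset (Fin m)),
        (univ.filter (fun s : Fin m → (Fin r → Fin M) =>
          ∀ i ∈ J, ∀ j ∈ J, i < j → ¬ Adj (s i) (s j))).card) * n^w := by
            apply Nat.mul_le_mul_right
            exact le_trans (card_le_card hsub) card_biUnion_le
        _ = ∑ J ∈ powersetCard w (univ : Finset (Fin m)),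
        (univ.filter (fun s : Fin m → (Fin r → Fin M) =>
          ∀ i ∈ J, ∀ j ∈ J, i < j → ¬ Adj (s i) (s j))).card * n^w := by rw [Finset.sum_mul]
        _ ≤ ∑ J ∈ powersetCard w (univ : Finset (Fin m)),
          (indepSeqs (fun x y : Fin r → Fin M => Adj x y) w univ).card * n^m :=
            Finset.sum_le_sum hJ
        _ = (powersetCard w (univ : Finset (Fin m))).card *
          ((indepSeqs (fun x y : Fin r → Fin M => Adj x y) w univ).card * n^m) := by simp
        _ ≤ _ := by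
            apply Nat.mul_le_mul_right
            rw [card_powersetCard]
            simp only [card_univ, Fintype.card_fin]
            exact Nat.choose_le_two_pow _ _
    have h3 : (Bad2.card * b^g) * n^w ≤ (2^(m+w) * n^m) * n^w := by
      calc (Bad2.card * b^g) * n^w = (Bad2.card * n^w) * b^g := by ring
        _ ≤ (2^m * ((indepSeqs (fun x y : Fin r → Fin M => Adj x y) w univ).card
        * n^m)) * b^g := Nat.mul_le_mul_right _ h2
        _ = 2^m * n^m * ((indepSeqs (fun x y : Fin r → Fin M => Adj x y) w univ).card * b^g) := by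
            ring
        _ ≤ 2^m * n^m * (2*n)^w := Nat.mul_le_mul_left _ hcount
        _ = _ := by rw [mul_pow, pow_add]; ring
    have h4 := Nat.le_of_mul_le_mul_right h3 (Nat.pow_pos hnpos)
    have h5 : 2^(m+w+1) < b^g := by
      rw [hb, ← pow_mul]
      apply Nat.pow_lt_pow_right (by norm_num)
      have hm' : m = 4 * k * g := by rw [hm, hw]; ring
      rw [hm', hw]
      nlinarith
    have h6 : b^g * (2 * Bad2.card) < b^g * n^m := by
      calc b^g * (2 * Bad2.card) = 2 * (Bad2.card * b^g) := by ring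
        _ ≤ 2 * (2^(m+w) * n^m) := Nat.mul_le_mul_left _ h4
        _ = 2^(m+w+1) * n^m := by ring
        _ < b^g * n^m := Nat.mul_lt_mul_of_pos_right h5 (Nat.pow_pos hnpos)
    exact Nat.lt_of_mul_lt_mul_left h6
  -- a good sequence
  have hex : ∃ s : Fin m → (Fin r → Fin M), s ∉ Bad1 ∧ s ∉ Bad2 := by
    by_contra hcon
    push Not at hcon
    have hun : (univ : Finset (Fin m → (Fin r → Fin M))) ⊆ Bad1 ∪ Bad2 := by
      intro s _
      rw [mem_union]
      by_cases h : s ∈ Bad1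
      · left; exact h
      · right; exact hcon s h
    have h1 := le_trans (card_le_card hun) (card_union_le _ _)
    have h2 : (univ : Finset (Fin m → (Fin r → Fin M))).card = n^m := by
      rw [card_univ, Fintype.card_fun, hcard, Fintype.card_fin]
    omega
  obtain ⟨s, hs1, hs2⟩ := hex
  refine ⟨r, M, (univ \ badSet s).image s, ?_, ?_⟩
  · intro j x hx y hy z hz hxy hxz hyz h1 h2
    rw [mem_image] at hx hy hz
    obtain ⟨a, ha, rfl⟩ := hx
    obtain ⟨a', ha', rfl⟩ := hy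
    obtain ⟨a'', ha'', rfl⟩ := hz
    rw [mem_sdiff] at ha
    apply ha.2
    rw [badSet, mem_filter]
    exact ⟨mem_univ _, a', a'', j, fun h => hxy (by rw [h]), fun h => hxz (by rw [h]),
      fun h => hyz (by rw [h]), h1, h2⟩
  · intro c
    have hgood : m < 2 * (univ \ badSet s).card := by
      have h1 : (univ \ badSet s).card = m - (badSet s).card := by
        rw [card_sdiff_of_subset (subset_univ _)]; simp
      have h2 : ¬ (m ≤ 2 * (badSet s).card) := by
        intro h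
        apply hs1
        rw [mem_filter]
        exact ⟨mem_univ _, h⟩
      omega
    have : Nonempty (Fin k) := ⟨⟨0, hk⟩⟩
    have hpig : ∃ a ∈ (univ : Finset (Fin k)),
        w ≤ ((univ \ badSet s).filter (fun i => c (s i) = a)).card := by
      apply Finset.exists_le_card_fiber_of_mul_le_card_of_maps_to (fun _ _ => mem_univ _)
        univ_nonempty
      simp only [card_univ, Fintype.card_fin]
      have : m = 2 * (k * w) := by rw [hm]; ring
      omega
    obtain ⟨a, _, ha⟩ := hpig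
    obtain ⟨J, hJ1, hJ2⟩ := Finset.exists_subset_card_eq ha
    have hs2' : ¬ ∀ i ∈ J, ∀ j ∈ J, i < j → ¬ Adj (s i) (s j) := by
      intro h
      apply hs2
      rw [mem_filter]
      exact ⟨mem_univ _, J, by rw [mem_powersetCard]; exact ⟨subset_univ _, hJ2⟩, h⟩
    push Not at hs2'
    obtain ⟨i, hi, j, hj, _, hadj⟩ := hs2'
    have hi' := hJ1 hi
    have hj' := hJ1 hj
    rw [mem_filter] at hi' hj'
    exact ⟨s i, mem_image_of_mem _ hi'.1, s j, mem_image_of_mem _ hj'.1, hadj,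
      by rw [hi'.2, hj'.2]⟩

/-- orientation determinant -/
def D3 {R : Type} [CommRing R] (p q s : R × R) : R :=
  (q.1 - p.1) * (s.2 - p.2) - (s.1 - p.1) * (q.2 - p.2)

/-- in-circle determinant -/
def D4 {R : Type} [CommRing R] (p q s u : R × R) : R :=
  ((p.1-u.1)^2 + (p.2-u.2)^2) * ((q.1-u.1)*(s.2-u.2) - (q.2-u.2)*(s.1-u.1))
  - ((q.1-u.1)^2 + (q.2-u.2)^2) * ((p.1-u.1)*(s.2-u.2) - (p.2-u.2)*(s.1-u.1))
  + ((s.1-u.1)^2 + (s.2-u.2)^2) * ((p.1-u.1)*(q.2-u.2) - (p.2-u.2)*(q.1-u.1))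

lemma D3_swap12 (p q s : ℤ × ℤ) : D3 q p s = - D3 p q s := by simp only [D3]; ring
lemma D3_swap23 (p q s : ℤ × ℤ) : D3 p s q = - D3 p q s := by simp only [D3]; ring
lemma D4_swap12 (p q s u : ℤ × ℤ) : D4 q p s u = - D4 p q s u := by simp only [D4]; ring
lemma D4_swap23 (p q s u : ℤ × ℤ) : D4 p s q u = - D4 p q s u := by simp only [D4]; ring
lemma D4_swap34 (p q s u : ℤ × ℤ) : D4 p q u s = - D4 p q s u := by simp only [D4]; ring

/-- first coordinate of the `j`-th direction -/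
def dx (j : ℕ) : ℤ := 1 - ((j:ℤ)+2)^2
/-- second coordinate of the `j`-th direction -/
def dy (j : ℕ) : ℤ := 2*((j:ℤ)+2)

lemma dx_sq_add_dy_sq (j : ℕ) : (dx j)^2 + (dy j)^2 = (1 + ((j:ℤ)+2)^2)^2 := by
  simp only [dx, dy]; ring

lemma cross_ne {i j : ℕ} (h : i ≠ j) : dx i * dy j - dy i * dx j ≠ 0 := by
  have h1 : dx i * dy j - dy i * dx j =
      2 * ((j:ℤ) - i) * (1 + ((i:ℤ)+2)*((j:ℤ)+2)) := by
    simp only [dx, dy]; ring
  rw [h1]
  apply mul_ne_zero
  · apply mul_ne_zero (by norm_num)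
    intro h2
    apply h
    have : (j:ℤ) = i := by linarith
    exact_mod_cast this.symm
  · positivity

lemma dot_ne (i j : ℕ) : dx i * dx j + dy i * dy j ≠ 0 := by
  have h1 : dx i * dx j + dy i * dy j =
      (1 + ((i:ℤ)+2)*((j:ℤ)+2) - ((i:ℤ)+2) + ((j:ℤ)+2)) *
      (1 + ((i:ℤ)+2)*((j:ℤ)+2) + ((i:ℤ)+2) - ((j:ℤ)+2)) := by
    simp only [dx, dy]; ring
  rw [h1]
  apply mul_ne_zero
  · have : (0:ℤ) < 1 + ((i:ℤ)+2)*((j:ℤ)+2) - ((i:ℤ)+2) + ((j:ℤ)+2) := by
      have h2 : (0:ℤ) ≤ i := by positivity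
      have h3 : (0:ℤ) ≤ j := by positivity
      nlinarith [mul_nonneg h2 h3]
    exact ne_of_gt this
  · have : (0:ℤ) < 1 + ((i:ℤ)+2)*((j:ℤ)+2) + ((i:ℤ)+2) - ((j:ℤ)+2) := by
      have h2 : (0:ℤ) ≤ i := by positivity
      have h3 : (0:ℤ) ≤ j := by positivity
      nlinarith [mul_nonneg h2 h3]
    exact ne_of_gt this

/-- the plane image of a point of the Hamming space, for a choice of parameters `t` -/
def phi {R : Type} [CommRing R] {r M : ℕ} (t : Fin r × Fin M → R) (x : Fin r → Fin M) : R × R :=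
  (∑ j : Fin r, ((dx j : ℤ) : R) * t (j, x j), ∑ j : Fin r, ((dy j : ℤ) : R) * t (j, x j))

lemma phi_add {r M : ℕ} (t t' : Fin r × Fin M → ℤ) (x : Fin r → Fin M) :
    phi (t + t') x = phi t x + phi t' x := by
  simp only [phi, Pi.add_apply, mul_add, Finset.sum_add_distrib, Prod.mk_add_mk]

lemma phi_single {r M : ℕ} (i : Fin r) (v : Fin M) (c : ℤ) (x : Fin r → Fin M) :
    phi (Pi.single (i, v) c) x = if x i = v then (dx i * c, dy i * c) else (0 : ℤ × ℤ) := by
  have h1 : ∀ f : ℕ → ℤ, ∑ j : Fin r, ((f j : ℤ) : ℤ) * (Pi.single (i, v) c : Fin r × Fin M → ℤ) (j, x j)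
      = if x i = v then f i * c else 0 := by
    intro f
    rw [Finset.sum_eq_single i]
    · by_cases h : x i = v
      · rw [if_pos h, h, Pi.single_eq_same]
      · rw [if_neg h, Pi.single_eq_of_ne, mul_zero]
        intro h2
        exact h (Prod.mk.inj h2).2
    · intro j _ hj
      rw [Pi.single_eq_of_ne, mul_zero]
      intro h2
      exact hj (Prod.mk.inj h2).1
    · intro h; exact absurd (mem_univ i) h
  simp only [phi, Int.cast_id, h1]
  split_ifs <;> rfl

lemma exists_t3_aux {r M : ℕ} (p q s : Fin r → Fin M) (i j : Fin r) (hij : i ≠ j)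
    (h1 : p i ≠ q i) (h2 : p i ≠ s i) (h3 : q j ≠ s j) :
    ∃ t : Fin r × Fin M → ℤ, D3 (phi t p) (phi t q) (phi t s) ≠ 0 := by
  refine ⟨Pi.single (i, p i) 1 + Pi.single (j, q j) 1, ?_⟩
  have hij' : (i : ℕ) ≠ (j : ℕ) := fun h => hij (Fin.ext h)
  have hc := cross_ne hij'
  simp only [phi_add, phi_single, if_neg h1.symm, if_neg h2.symm, if_neg h3.symm, if_true]
  by_cases h4 : p j = q j
  · rw [if_pos h4]
    simp only [D3, Prod.fst_add, Prod.snd_add, Prod.fst_zero, Prod.snd_zero]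
    intro h5; apply hc; linarith
  · rw [if_neg h4]
    simp only [D3, Prod.fst_add, Prod.snd_add, Prod.fst_zero, Prod.snd_zero]
    intro h5; apply hc; linarith

lemma exists_t3 {r M : ℕ} (x y z : Fin r → Fin M) (hxy : x ≠ y) (hxz : x ≠ z) (hyz : y ≠ z)
    (hl : ∀ j, Line j x y → Line j x z → False) :
    ∃ t : Fin r × Fin M → ℤ, D3 (phi t x) (phi t y) (phi t z) ≠ 0 := by
  -- main step with a singleton `p` in coordinate `i`
  have key : ∀ (p q s : Fin r → Fin M) (i : Fin r), q ≠ s → p i ≠ q i → p i ≠ s i →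
      (∀ j, Line j p q → Line j p s → False) →
      ∃ t : Fin r × Fin M → ℤ, D3 (phi t p) (phi t q) (phi t s) ≠ 0 := by
    intro p q s i hqs h1 h2 hl
    by_cases h3 : ∃ j, j ≠ i ∧ q j ≠ s j
    · obtain ⟨j, hj, h4⟩ := h3
      exact exists_t3_aux p q s i j (Ne.symm hj) h1 h2 h4
    · push Not at h3
      have hqsi : q i ≠ s i := by
        intro h4
        apply hqs
        funext j
        by_cases hj : j = i
        · rw [hj]; exact h4
        · exact h3 j hj
      have h4 : ∃ j, j ≠ i ∧ p j ≠ q j := by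
        by_contra hcon
        push Not at hcon
        exact hl i (fun j hj => hcon j hj) (fun j hj => by rw [hcon j hj, h3 j hj])
      obtain ⟨j, hj, h5⟩ := h4
      exact exists_t3_aux p q s j i hj h5 (by rw [← h3 j hj]; exact h5) hqsi
  obtain ⟨i, hi⟩ : ∃ i, x i ≠ y i := by
    by_contra hcon
    push Not at hcon
    exact hxy (funext hcon)
  by_cases h1 : x i = z i
  · -- `y` is the singleton
    obtain ⟨t, ht⟩ := key y x z i hxz (Ne.symm hi) (by rw [← h1]; exact Ne.symm hi)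
      (fun j h2 h3 => hl j (fun l hl' => (h2 l hl').symm)
        (fun l hl' => by rw [← h2 l hl', h3 l hl']))
    exact ⟨t, by rw [D3_swap12] at ht; exact fun h => ht (by rw [h, neg_zero])⟩
  · exact key x y z i hyz hi h1 hl

lemma exists_t4_single {r M : ℕ} (p q s u : Fin r → Fin M) (j : Fin r)
    (h1 : p j ≠ q j) (h2 : p j ≠ s j) (h3 : p j ≠ u j)
    (h : ∃ t : Fin r × Fin M → ℤ, D3 (phi t q) (phi t s) (phi t u) ≠ 0) :
    ∃ t : Fin r × Fin M → ℤ, D4 (phi t p) (phi t q) (phi t s) (phi t u) ≠ 0 := by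
  obtain ⟨t, ht⟩ := h
  by_contra hcon
  push Not at hcon
  have e0 := hcon t
  have e1 := hcon (t + Pi.single (j, p j) 1)
  have e2 := hcon (t + Pi.single (j, p j) (-1))
  simp only [phi_add, phi_single, if_neg h1.symm, if_neg h2.symm, if_neg h3.symm, if_true,
    add_zero] at e1 e2
  have hn : (0:ℤ) < (dx j)^2 + (dy j)^2 := by
    rw [dx_sq_add_dy_sq]; positivity
  have h4 : 2 * ((dx j)^2 + (dy j)^2) * D3 (phi t q) (phi t s) (phi t u) = 0 := by
    simp only [D3, D4, Prod.fst_add, Prod.snd_add] at e0 e1 e2 ⊢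
    linear_combination e1 + e2 - 2 * e0
  rcases mul_eq_zero.1 h4 with h5 | h5
  · linarith
  · exact ht h5

lemma exists_t4_para {r M : ℕ} (x y z w : Fin r → Fin M) (a b : Fin r)
    (h1 : x a = z a) (h2 : y a = w a) (h3 : x a ≠ y a)
    (h4 : x b = y b) (h5 : z b = w b) (h6 : x b ≠ z b) :
    ∃ t : Fin r × Fin M → ℤ, D4 (phi t x) (phi t y) (phi t z) (phi t w) ≠ 0 := by
  have hab : a ≠ b := by
    intro h
    rw [h] at h1
    exact h6 h1
  have hab' : (a : ℕ) ≠ (b : ℕ) := fun h => hab (Fin.ext h)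
  refine ⟨Pi.single (a, x a) 1 + Pi.single (b, x b) 1, ?_⟩
  simp only [phi_add, phi_single, if_true, if_pos h1.symm, if_pos h4.symm,
    if_neg (Ne.symm h3), if_neg (Ne.symm h6), if_neg (show ¬ (w a = x a) by rw [← h2]; exact Ne.symm h3),
    if_neg (show ¬ (w b = x b) by rw [← h5]; exact Ne.symm h6)]
  have hc := mul_ne_zero (mul_ne_zero (show (2:ℤ) ≠ 0 by norm_num) (dot_ne a b)) (cross_ne hab')
  intro h
  apply hc
  simp only [D4, Prod.fst_add, Prod.snd_add, Prod.fst_zero, Prod.snd_zero] at h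
  linear_combination (-1) * h

lemma exists_t4 {r M : ℕ} (S : Finset (Fin r → Fin M))
    (hS : ∀ j, ∀ x ∈ S, ∀ y ∈ S, ∀ z ∈ S, x ≠ y → x ≠ z → y ≠ z →
      Line j x y → Line j x z → False)
    (x y z w : Fin r → Fin M) (hx : x ∈ S) (hy : y ∈ S) (hz : z ∈ S) (hw : w ∈ S)
    (hxy : x ≠ y) (hxz : x ≠ z) (hxw : x ≠ w) (hyz : y ≠ z) (hyw : y ≠ w) (hzw : z ≠ w) :
    ∃ t : Fin r × Fin M → ℤ, D4 (phi t x) (phi t y) (phi t z) (phi t w) ≠ 0 := by
  have s12 : ∀ a b c d : Fin r → Fin M,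
      (∃ t : Fin r × Fin M → ℤ, D4 (phi t a) (phi t b) (phi t c) (phi t d) ≠ 0) →
      (∃ t : Fin r × Fin M → ℤ, D4 (phi t b) (phi t a) (phi t c) (phi t d) ≠ 0) := by
    rintro a b c d ⟨t, ht⟩
    exact ⟨t, by rw [D4_swap12]; exact neg_ne_zero.2 ht⟩
  have s23 : ∀ a b c d : Fin r → Fin M,
      (∃ t : Fin r × Fin M → ℤ, D4 (phi t a) (phi t b) (phi t c) (phi t d) ≠ 0) →
      (∃ t : Fin r × Fin M → ℤ, D4 (phi t a) (phi t c) (phi t b) (phi t d) ≠ 0) := by
    rintro a b c d ⟨t, ht⟩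
    exact ⟨t, by rw [D4_swap23]; exact neg_ne_zero.2 ht⟩
  have s34 : ∀ a b c d : Fin r → Fin M,
      (∃ t : Fin r × Fin M → ℤ, D4 (phi t a) (phi t b) (phi t c) (phi t d) ≠ 0) →
      (∃ t : Fin r × Fin M → ℤ, D4 (phi t a) (phi t b) (phi t d) (phi t c) ≠ 0) := by
    rintro a b c d ⟨t, ht⟩
    exact ⟨t, by rw [D4_swap34]; exact neg_ne_zero.2 ht⟩
  have t3 : ∀ a ∈ S, ∀ b ∈ S, ∀ c ∈ S, a ≠ b → a ≠ c → b ≠ c →
      ∃ t : Fin r × Fin M → ℤ, D3 (phi t a) (phi t b) (phi t c) ≠ 0 := by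
    intro a ha b hb c hc hab hac hbc
    exact exists_t3 a b c hab hac hbc (fun j => hS j a ha b hb c hc hab hac hbc)
  by_cases c1 : ∃ j, x j ≠ y j ∧ x j ≠ z j ∧ x j ≠ w j
  · obtain ⟨j, h1, h2, h3⟩ := c1
    exact exists_t4_single x y z w j h1 h2 h3 (t3 y hy z hz w hw hyz hyw hzw)
  by_cases c2 : ∃ j, y j ≠ x j ∧ y j ≠ z j ∧ y j ≠ w j
  · obtain ⟨j, h1, h2, h3⟩ := c2
    exact s12 _ _ _ _ (exists_t4_single y x z w j h1 h2 h3 (t3 x hx z hz w hw hxz hxw hzw))
  by_cases c3 : ∃ j, z j ≠ x j ∧ z j ≠ y j ∧ z j ≠ w j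
  · obtain ⟨j, h1, h2, h3⟩ := c3
    exact s23 _ _ _ _ (s12 _ _ _ _
      (exists_t4_single z x y w j h1 h2 h3 (t3 x hx y hy w hw hxy hxw hyw)))
  by_cases c4 : ∃ j, w j ≠ x j ∧ w j ≠ y j ∧ w j ≠ z j
  · obtain ⟨j, h1, h2, h3⟩ := c4
    exact s34 _ _ _ _ (s23 _ _ _ _ (s12 _ _ _ _
      (exists_t4_single w x y z j h1 h2 h3 (t3 x hx y hy z hz hxy hxz hyz))))
  -- every coordinate is constant or of type 2-2
  have hx' : ∀ j, x j = y j ∨ x j = z j ∨ x j = w j := by
    intro j; by_contra hcon; push Not at hcon; exact c1 ⟨j, hcon⟩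
  have hy' : ∀ j, y j = x j ∨ y j = z j ∨ y j = w j := by
    intro j; by_contra hcon; push Not at hcon; exact c2 ⟨j, hcon⟩
  have hz' : ∀ j, z j = x j ∨ z j = y j ∨ z j = w j := by
    intro j; by_contra hcon; push Not at hcon; exact c3 ⟨j, hcon⟩
  have hw' : ∀ j, w j = x j ∨ w j = y j ∨ w j = z j := by
    intro j; by_contra hcon; push Not at hcon; exact c4 ⟨j, hcon⟩
  have ex : ∀ p q : Fin r → Fin M, p ≠ q → ∃ j, p j ≠ q j := by
    intro p q hpq
    by_contra hcon
    push Not at hcon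
    exact hpq (funext hcon)
  obtain ⟨a, ha⟩ := ex x y hxy
  have ha2 : (x a = z a ∧ y a = w a) ∨ (x a = w a ∧ y a = z a) := by
    rcases hx' a with h | h | h
    · exact absurd h ha
    · rcases hy' a with h' | h' | h'
      · exact absurd h'.symm ha
      · exact absurd (h.trans h'.symm) ha
      · exact Or.inl ⟨h, h'⟩
    · rcases hy' a with h' | h' | h'
      · exact absurd h'.symm ha
      · exact Or.inr ⟨h, h'⟩
      · exact absurd (h.trans h'.symm) ha
  rcases ha2 with ⟨h1, h2⟩ | ⟨h1, h2⟩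
  · obtain ⟨b, hb⟩ := ex x z hxz
    have hb2 : (x b = y b ∧ z b = w b) ∨ (x b = w b ∧ z b = y b) := by
      rcases hx' b with h | h | h
      · rcases hz' b with h' | h' | h'
        · exact absurd h'.symm hb
        · exact absurd (h.trans h'.symm) hb
        · exact Or.inl ⟨h, h'⟩
      · exact absurd h hb
      · rcases hz' b with h' | h' | h'
        · exact absurd h'.symm hb
        · exact Or.inr ⟨h, h'⟩
        · exact absurd (h.trans h'.symm) hb
    rcases hb2 with ⟨h3, h4⟩ | ⟨h3, h4⟩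
    · exact exists_t4_para x y z w a b h1 h2 ha h3 h4 hb
    · -- swap y and w
      have := exists_t4_para x w z y a b h1 h2.symm (by rw [← h2]; exact ha) h3 h4 hb
      exact s34 _ _ _ _ (s23 _ _ _ _ (s34 _ _ _ _ this))
  · obtain ⟨b, hb⟩ := ex x w hxw
    have hb2 : (x b = y b ∧ w b = z b) ∨ (x b = z b ∧ w b = y b) := by
      rcases hx' b with h | h | h
      · rcases hw' b with h' | h' | h'
        · exact absurd h'.symm hb
        · exact absurd (h.trans h'.symm) hb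
        · exact Or.inl ⟨h, h'⟩
      · rcases hw' b with h' | h' | h'
        · exact absurd h'.symm hb
        · exact Or.inr ⟨h, h'⟩
        · exact absurd (h.trans h'.symm) hb
      · exact absurd h hb
    rcases hb2 with ⟨h3, h4⟩ | ⟨h3, h4⟩
    · -- roles: z := w
      have := exists_t4_para x y w z a b h1 h2 ha h3 h4 hb
      exact s34 _ _ _ _ this
    · have := exists_t4_para x z w y a b h1 h2.symm (by rw [← h2]; exact ha) h3 h4 hb
      -- x z w y -> x y z w
      exact s23 _ _ _ _ (s34 _ _ _ _ this)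

lemma exists_common {σ : Type} (s : Set (MvPolynomial σ ℤ)) (hs : s.Finite)
    (h : ∀ P ∈ s, ∃ t, MvPolynomial.eval t P ≠ 0) :
    ∃ t, ∀ P ∈ s, MvPolynomial.eval t P ≠ 0 := by
  have h1 : ∏ P ∈ hs.toFinset, P ≠ 0 := by
    rw [Finset.prod_ne_zero_iff]
    intro P hP h0
    rw [Set.Finite.mem_toFinset] at hP
    obtain ⟨t, ht⟩ := h P hP
    rw [h0, map_zero] at ht
    exact ht rfl
  by_contra hcon
  push Not at hcon
  apply h1
  apply MvPolynomial.funext
  intro t
  obtain ⟨P, hP, h0⟩ := hcon t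
  rw [map_prod, map_zero]
  exact Finset.prod_eq_zero ((Set.Finite.mem_toFinset hs).2 hP) h0

/-- no three collinear and no four concyclic, in determinant form -/
def GP (A : Set (ℤ × ℤ)) : Prop :=
  (∀ p ∈ A, ∀ q ∈ A, ∀ s ∈ A, p ≠ q → p ≠ s → q ≠ s → D3 p q s ≠ 0) ∧
  (∀ p ∈ A, ∀ q ∈ A, ∀ s ∈ A, ∀ u ∈ A, p ≠ q → p ≠ s → p ≠ u → q ≠ s → q ≠ u → s ≠ u →
    D4 p q s u ≠ 0)

/-- every `k`-colouring of `A` has two distinct points of the same colour at integer distance -/
def Bad (k : ℕ) (A : Set (ℤ × ℤ)) : Prop :=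
  ∀ c : ℤ × ℤ → Fin k, ∃ p ∈ A, ∃ q ∈ A, p ≠ q ∧ c p = c q ∧
    ∃ n : ℤ, (p.1 - q.1)^2 + (p.2 - q.2)^2 = n^2

theorem finite_piece {r M k : ℕ} (S : Finset (Fin r → Fin M))
    (hS : ∀ j, ∀ x ∈ S, ∀ y ∈ S, ∀ z ∈ S, x ≠ y → x ≠ z → y ≠ z →
      Line j x y → Line j x z → False)
    (hc : ∀ c : (Fin r → Fin M) → Fin k, ∃ x ∈ S, ∃ y ∈ S, Adj x y ∧ c x = c y) :
    ∃ P : Finset (ℤ × ℤ), GP P ∧ Bad k P := by
  let X : Fin r × Fin M → MvPolynomial (Fin r × Fin M) ℤ := fun q => MvPolynomial.X q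
  have ev : ∀ (t : Fin r × Fin M → ℤ) (x : Fin r → Fin M),
      MvPolynomial.eval t (phi X x).1 = (phi t x).1 ∧
      MvPolynomial.eval t (phi X x).2 = (phi t x).2 := by
    intro t x
    simp [phi, X]
  have ev3 : ∀ (t : Fin r × Fin M → ℤ) (x y z : Fin r → Fin M),
      MvPolynomial.eval t (D3 (phi X x) (phi X y) (phi X z)) =
        D3 (phi t x) (phi t y) (phi t z) := by
    intro t x y z
    simp only [D3, map_sub, map_mul, (ev t _).1, (ev t _).2]
  have ev4 : ∀ (t : Fin r × Fin M → ℤ) (x y z w : Fin r → Fin M),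
      MvPolynomial.eval t (D4 (phi X x) (phi X y) (phi X z) (phi X w)) =
        D4 (phi t x) (phi t y) (phi t z) (phi t w) := by
    intro t x y z w
    simp only [D4, map_sub, map_mul, map_add, map_pow, (ev t _).1, (ev t _).2]
  let s2 : Set (MvPolynomial (Fin r × Fin M) ℤ) :=
    {P | ∃ x y : Fin r → Fin M, x ≠ y ∧ P = (phi X x).1 - (phi X y).1}
  let s3 : Set (MvPolynomial (Fin r × Fin M) ℤ) :=
    {P | ∃ x y z : Fin r → Fin M, (x ∈ S ∧ y ∈ S ∧ z ∈ S ∧ x ≠ y ∧ x ≠ z ∧ y ≠ z) ∧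
      P = D3 (phi X x) (phi X y) (phi X z)}
  let s4 : Set (MvPolynomial (Fin r × Fin M) ℤ) :=
    {P | ∃ x y z w : Fin r → Fin M, (x ∈ S ∧ y ∈ S ∧ z ∈ S ∧ w ∈ S ∧
      x ≠ y ∧ x ≠ z ∧ x ≠ w ∧ y ≠ z ∧ y ≠ w ∧ z ≠ w) ∧
      P = D4 (phi X x) (phi X y) (phi X z) (phi X w)}
  have f2 : s2.Finite := by
    apply (Set.finite_range (fun q : (Fin r → Fin M) × (Fin r → Fin M) =>
      (phi X q.1).1 - (phi X q.2).1)).subset
    rintro P ⟨x, y, _, rfl⟩
    exact ⟨(x, y), rfl⟩
  have f3 : s3.Finite := by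
    apply (Set.finite_range (fun q : (Fin r → Fin M) × (Fin r → Fin M) × (Fin r → Fin M) =>
      D3 (phi X q.1) (phi X q.2.1) (phi X q.2.2))).subset
    rintro P ⟨x, y, z, _, rfl⟩
    exact ⟨(x, y, z), rfl⟩
  have f4 : s4.Finite := by
    apply (Set.finite_range
      (fun q : (Fin r → Fin M) × (Fin r → Fin M) × (Fin r → Fin M) × (Fin r → Fin M) =>
      D4 (phi X q.1) (phi X q.2.1) (phi X q.2.2.1) (phi X q.2.2.2))).subset
    rintro P ⟨x, y, z, w, _, rfl⟩
    exact ⟨(x, y, z, w), rfl⟩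
  obtain ⟨t, ht⟩ := exists_common (s2 ∪ s3 ∪ s4) ((f2.union f3).union f4) (by
    rintro P ((hP | hP) | hP)
    · obtain ⟨x, y, hxy, rfl⟩ := hP
      obtain ⟨i, hi⟩ : ∃ i, x i ≠ y i := by
        by_contra hcon
        push Not at hcon
        exact hxy (funext hcon)
      refine ⟨Pi.single (i, x i) 1, ?_⟩
      rw [map_sub, (ev _ _).1, (ev _ _).1, phi_single, phi_single, if_pos rfl,
        if_neg (Ne.symm hi)]
      simp only [Prod.fst_zero, mul_one, sub_zero, dx]
      have : (0:ℤ) ≤ ((i:ℕ):ℤ) := by positivity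
      nlinarith
    · obtain ⟨x, y, z, ⟨hx, hy, hz, hxy, hxz, hyz⟩, rfl⟩ := hP
      obtain ⟨t, ht⟩ := exists_t3 x y z hxy hxz hyz
        (fun j => hS j x hx y hy z hz hxy hxz hyz)
      exact ⟨t, by rw [ev3]; exact ht⟩
    · obtain ⟨x, y, z, w, ⟨hx, hy, hz, hw, hxy, hxz, hxw, hyz, hyw, hzw⟩, rfl⟩ := hP
      obtain ⟨t, ht⟩ := exists_t4 S hS x y z w hx hy hz hw hxy hxz hxw hyz hyw hzw
      exact ⟨t, by rw [ev4]; exact ht⟩)
  have g2 : ∀ x y : Fin r → Fin M, x ≠ y → phi t x ≠ phi t y := by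
    intro x y hxy h
    apply ht ((phi X x).1 - (phi X y).1) (Or.inl (Or.inl ⟨x, y, hxy, rfl⟩))
    rw [map_sub, (ev _ _).1, (ev _ _).1, h, sub_self]
  refine ⟨S.image (phi t), ⟨?_, ?_⟩, ?_⟩
  · intro p hp q hq s hs hpq hps hqs
    rw [mem_coe, mem_image] at hp hq hs
    obtain ⟨x, hx, rfl⟩ := hp
    obtain ⟨y, hy, rfl⟩ := hq
    obtain ⟨z, hz, rfl⟩ := hs
    rw [← ev3]
    exact ht _ (Or.inl (Or.inr ⟨x, y, z, ⟨hx, hy, hz, fun h => hpq (by rw [h]),
      fun h => hps (by rw [h]), fun h => hqs (by rw [h])⟩, rfl⟩))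
  · intro p hp q hq s hs u hu hpq hps hpu hqs hqu hsu
    rw [mem_coe, mem_image] at hp hq hs hu
    obtain ⟨x, hx, rfl⟩ := hp
    obtain ⟨y, hy, rfl⟩ := hq
    obtain ⟨z, hz, rfl⟩ := hs
    obtain ⟨w, hw, rfl⟩ := hu
    rw [← ev4]
    exact ht _ (Or.inr ⟨x, y, z, w, ⟨hx, hy, hz, hw, fun h => hpq (by rw [h]),
      fun h => hps (by rw [h]), fun h => hpu (by rw [h]), fun h => hqs (by rw [h]),
      fun h => hqu (by rw [h]), fun h => hsu (by rw [h])⟩, rfl⟩)
  · intro c
    obtain ⟨x, hx, y, hy, ⟨hxy, j, hj⟩, hcxy⟩ := hc (fun x => c (phi t x))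
    refine ⟨phi t x, mem_coe.2 (mem_image_of_mem _ hx), phi t y,
      mem_coe.2 (mem_image_of_mem _ hy), g2 x y hxy, hcxy, ?_⟩
    refine ⟨(t (j, x j) - t (j, y j)) * (1 + ((j:ℕ):ℤ) * (j:ℕ) + 4 * (j:ℕ) + 4), ?_⟩
    have hdiff : ∀ f : ℕ → ℤ, ∑ i : Fin r, f i * t (i, x i) - ∑ i : Fin r, f i * t (i, y i)
        = f j * (t (j, x j) - t (j, y j)) := by
      intro f
      rw [← Finset.sum_sub_distrib, Finset.sum_eq_single j]
      · ring
      · intro i _ hi
        rw [hj i hi, sub_self]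
      · intro h; exact absurd (mem_univ j) h
    simp only [phi, Int.cast_id, hdiff]
    simp only [dx, dy]
    ring

/-- translate of a lattice point -/
def shift (v : ℤ × ℤ) (p : ℤ × ℤ) : ℤ × ℤ := (p.1 + v.1, p.2 + v.2)

lemma shift_inj (v : ℤ × ℤ) {p q : ℤ × ℤ} (h : shift v p = shift v q) : p = q := by
  simp only [shift, Prod.mk.injEq, add_left_inj] at h
  exact Prod.ext h.1 h.2

lemma exists_D3 (q1 q2 : ℤ × ℤ) (h : q1 ≠ q2) : ∃ z : ℤ × ℤ, D3 q1 q2 z ≠ 0 := by
  refine ⟨(q1.1 - (q2.2 - q1.2), q1.2 + (q2.1 - q1.1)), ?_⟩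
  intro h0
  apply h
  simp only [D3] at h0
  have h1 : (q2.1 - q1.1)^2 + (q2.2 - q1.2)^2 = 0 := by linear_combination h0
  have h2 : q2.1 - q1.1 = 0 := by nlinarith [sq_nonneg (q2.1 - q1.1), sq_nonneg (q2.2 - q1.2)]
  have h3 : q2.2 - q1.2 = 0 := by nlinarith [sq_nonneg (q2.1 - q1.1), sq_nonneg (q2.2 - q1.2)]
  exact Prod.ext (by linarith) (by linarith)

lemma exists_D4_one (q1 q2 q3 : ℤ × ℤ) (h : D3 q1 q2 q3 ≠ 0) :
    ∃ z : ℤ × ℤ, D4 q1 q2 q3 z ≠ 0 := by
  by_contra hcon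
  push Not at hcon
  have e0 := hcon (0, 0)
  have e1 := hcon (1, 0)
  have e2 := hcon (-1, 0)
  apply h
  have : 2 * D3 q1 q2 q3 = 0 := by
    simp only [D3, D4] at e0 e1 e2 ⊢
    linear_combination (-1) * e1 + (-1) * e2 + 2 * e0
  linarith

lemma exists_D4_two (q1 q2 p1 p2 : ℤ × ℤ) (hq : q1 ≠ q2) (hp : p1 ≠ p2) :
    ∃ v : ℤ × ℤ, D4 q1 q2 (shift v p1) (shift v p2) ≠ 0 := by
  by_contra hcon
  push Not at hcon
  have key : ∀ a b : ℤ, 2 * (a * (p2.1 - p1.1) + b * (p2.2 - p1.2)) *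
      ((q2.1 - q1.1) * b - (q2.2 - q1.2) * a) - (a^2 + b^2) *
      ((q2.1 - q1.1) * (p2.2 - p1.2) - (q2.2 - q1.2) * (p2.1 - p1.1)) = 0 := by
    intro a b
    have e0 := hcon (0, 0)
    have e1 := hcon (a, b)
    have e2 := hcon (-a, -b)
    have : 2 * (2 * (a * (p2.1 - p1.1) + b * (p2.2 - p1.2)) *
      ((q2.1 - q1.1) * b - (q2.2 - q1.2) * a) - (a^2 + b^2) *
      ((q2.1 - q1.1) * (p2.2 - p1.2) - (q2.2 - q1.2) * (p2.1 - p1.1))) = 0 := by
      simp only [D4, shift] at e0 e1 e2 ⊢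
      linear_combination (-1) * e1 + (-1) * e2 + 2 * e0
    linarith
  have hpos : (p2.1 - p1.1)^2 + (p2.2 - p1.2)^2 ≠ 0 := by
    intro h0
    apply hp
    have h2 : p2.1 - p1.1 = 0 := by nlinarith [sq_nonneg (p2.1 - p1.1), sq_nonneg (p2.2 - p1.2)]
    have h3 : p2.2 - p1.2 = 0 := by nlinarith [sq_nonneg (p2.1 - p1.1), sq_nonneg (p2.2 - p1.2)]
    exact Prod.ext (by linarith) (by linarith)
  have hqpos : (q2.1 - q1.1)^2 + (q2.2 - q1.2)^2 ≠ 0 := by
    intro h0
    apply hq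
    have h2 : q2.1 - q1.1 = 0 := by nlinarith [sq_nonneg (q2.1 - q1.1), sq_nonneg (q2.2 - q1.2)]
    have h3 : q2.2 - q1.2 = 0 := by nlinarith [sq_nonneg (q2.1 - q1.1), sq_nonneg (q2.2 - q1.2)]
    exact Prod.ext (by linarith) (by linarith)
  have k1 := key (p2.1 - p1.1) (p2.2 - p1.2)
  have k2 := key (p2.1 - p1.1 - (p2.2 - p1.2)) (p2.2 - p1.2 + (p2.1 - p1.1))
  have c1 : (q2.1 - q1.1) * (p2.2 - p1.2) - (q2.2 - q1.2) * (p2.1 - p1.1) = 0 := by
    have : ((p2.1 - p1.1)^2 + (p2.2 - p1.2)^2) *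
      ((q2.1 - q1.1) * (p2.2 - p1.2) - (q2.2 - q1.2) * (p2.1 - p1.1)) = 0 := by
      linear_combination k1
    exact (mul_eq_zero.1 this).resolve_left hpos
  have c2 : (q2.1 - q1.1) * (p2.1 - p1.1) + (q2.2 - q1.2) * (p2.2 - p1.2) = 0 := by
    have : ((p2.1 - p1.1)^2 + (p2.2 - p1.2)^2) *
      ((q2.1 - q1.1) * (p2.1 - p1.1) + (q2.2 - q1.2) * (p2.2 - p1.2)) = 0 := by
      have h2 : 2 * (((p2.1 - p1.1)^2 + (p2.2 - p1.2)^2) *
      ((q2.1 - q1.1) * (p2.1 - p1.1) + (q2.2 - q1.2) * (p2.2 - p1.2))) = 0 := by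
        linear_combination k2
      linarith
    exact (mul_eq_zero.1 this).resolve_left hpos
  have : ((q2.1 - q1.1)^2 + (q2.2 - q1.2)^2) * ((p2.1 - p1.1)^2 + (p2.2 - p1.2)^2) = 0 := by
    linear_combination ((q2.1 - q1.1) * (p2.2 - p1.2) - (q2.2 - q1.2) * (p2.1 - p1.1)) * c1
      + ((q2.1 - q1.1) * (p2.1 - p1.1) + (q2.2 - q1.2) * (p2.2 - p1.2)) * c2
  exact (mul_ne_zero hqpos hpos) this

lemma D3_shift (v p q s : ℤ × ℤ) : D3 (shift v p) (shift v q) (shift v s) = D3 p q s := by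
  simp only [D3, shift]; ring

lemma D4_shift (v p q s u : ℤ × ℤ) :
    D4 (shift v p) (shift v q) (shift v s) (shift v u) = D4 p q s u := by
  simp only [D4, shift]; ring

theorem union_step (Q P : Finset (ℤ × ℤ)) (hQ : GP Q) (hP : GP P) :
    ∃ v : ℤ × ℤ, GP (↑(Q ∪ P.image (shift v)) : Set (ℤ × ℤ)) := by
  classical
  let cst : ℤ × ℤ → MvPolynomial (Fin 2) ℤ × MvPolynomial (Fin 2) ℤ :=
    fun q => (MvPolynomial.C q.1, MvPolynomial.C q.2)
  let mv : ℤ × ℤ → MvPolynomial (Fin 2) ℤ × MvPolynomial (Fin 2) ℤ :=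
    fun p => (MvPolynomial.C p.1 + MvPolynomial.X 0, MvPolynomial.C p.2 + MvPolynomial.X 1)
  have ev : ∀ (t : Fin 2 → ℤ) (q : ℤ × ℤ), MvPolynomial.eval t (cst q).1 = q.1 ∧
      MvPolynomial.eval t (cst q).2 = q.2 ∧
      MvPolynomial.eval t (mv q).1 = (shift (t 0, t 1) q).1 ∧
      MvPolynomial.eval t (mv q).2 = (shift (t 0, t 1) q).2 := by
    intro t q
    simp [cst, mv, shift]
  have ex : ∀ v : ℤ × ℤ, ∃ t : Fin 2 → ℤ, (t 0, t 1) = v := fun v => ⟨![v.1, v.2], rfl⟩
  -- families of conditions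
  let sa : Set (MvPolynomial (Fin 2) ℤ) := {F | ∃ q : (ℤ × ℤ) × (ℤ × ℤ) × (ℤ × ℤ),
    q ∈ Q ×ˢ Q ×ˢ P ∧ q.1 ≠ q.2.1 ∧ D3 (cst q.1) (cst q.2.1) (mv q.2.2) = F}
  let sb : Set (MvPolynomial (Fin 2) ℤ) := {F | ∃ q : (ℤ × ℤ) × (ℤ × ℤ) × (ℤ × ℤ),
    q ∈ Q ×ˢ P ×ˢ P ∧ q.2.1 ≠ q.2.2 ∧ D3 (cst q.1) (mv q.2.1) (mv q.2.2) = F}
  let sc : Set (MvPolynomial (Fin 2) ℤ) := {F | ∃ q : (ℤ × ℤ) × (ℤ × ℤ) × (ℤ × ℤ) × (ℤ × ℤ),
    q ∈ Q ×ˢ Q ×ˢ Q ×ˢ P ∧ (q.1 ≠ q.2.1 ∧ q.1 ≠ q.2.2.1 ∧ q.2.1 ≠ q.2.2.1) ∧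
    D4 (cst q.1) (cst q.2.1) (cst q.2.2.1) (mv q.2.2.2) = F}
  let sd : Set (MvPolynomial (Fin 2) ℤ) := {F | ∃ q : (ℤ × ℤ) × (ℤ × ℤ) × (ℤ × ℤ) × (ℤ × ℤ),
    q ∈ Q ×ˢ P ×ˢ P ×ˢ P ∧ (q.2.1 ≠ q.2.2.1 ∧ q.2.1 ≠ q.2.2.2 ∧ q.2.2.1 ≠ q.2.2.2) ∧
    D4 (cst q.1) (mv q.2.1) (mv q.2.2.1) (mv q.2.2.2) = F}
  let se : Set (MvPolynomial (Fin 2) ℤ) := {F | ∃ q : (ℤ × ℤ) × (ℤ × ℤ) × (ℤ × ℤ) × (ℤ × ℤ),
    q ∈ Q ×ˢ Q ×ˢ P ×ˢ P ∧ (q.1 ≠ q.2.1 ∧ q.2.2.1 ≠ q.2.2.2) ∧
    D4 (cst q.1) (cst q.2.1) (mv q.2.2.1) (mv q.2.2.2) = F}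
  have fa : sa.Finite := by
    apply ((Finset.finite_toSet (Q ×ˢ Q ×ˢ P)).image
      (fun q => D3 (cst q.1) (cst q.2.1) (mv q.2.2))).subset
    rintro F ⟨q, hq, _, rfl⟩
    exact ⟨q, hq, rfl⟩
  have fb : sb.Finite := by
    apply ((Finset.finite_toSet (Q ×ˢ P ×ˢ P)).image
      (fun q => D3 (cst q.1) (mv q.2.1) (mv q.2.2))).subset
    rintro F ⟨q, hq, _, rfl⟩
    exact ⟨q, hq, rfl⟩
  have fc : sc.Finite := by
    apply ((Finset.finite_toSet (Q ×ˢ Q ×ˢ Q ×ˢ P)).image
      (fun q => D4 (cst q.1) (cst q.2.1) (cst q.2.2.1) (mv q.2.2.2))).subset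
    rintro F ⟨q, hq, _, rfl⟩
    exact ⟨q, hq, rfl⟩
  have fd : sd.Finite := by
    apply ((Finset.finite_toSet (Q ×ˢ P ×ˢ P ×ˢ P)).image
      (fun q => D4 (cst q.1) (mv q.2.1) (mv q.2.2.1) (mv q.2.2.2))).subset
    rintro F ⟨q, hq, _, rfl⟩
    exact ⟨q, hq, rfl⟩
  have fe : se.Finite := by
    apply ((Finset.finite_toSet (Q ×ˢ Q ×ˢ P ×ˢ P)).image
      (fun q => D4 (cst q.1) (cst q.2.1) (mv q.2.2.1) (mv q.2.2.2))).subset
    rintro F ⟨q, hq, _, rfl⟩
    exact ⟨q, hq, rfl⟩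
  have eva : ∀ (t : Fin 2 → ℤ) (a b c : ℤ × ℤ),
      MvPolynomial.eval t (D3 (cst a) (cst b) (mv c)) = D3 a b (shift (t 0, t 1) c) := by
    intro t a b c
    simp only [D3, map_sub, map_mul, (ev t _).1, (ev t _).2.1, (ev t _).2.2.1, (ev t _).2.2.2]
  have evb : ∀ (t : Fin 2 → ℤ) (a b c : ℤ × ℤ),
      MvPolynomial.eval t (D3 (cst a) (mv b) (mv c)) =
        D3 a (shift (t 0, t 1) b) (shift (t 0, t 1) c) := by
    intro t a b c
    simp only [D3, map_sub, map_mul, (ev t _).1, (ev t _).2.1, (ev t _).2.2.1, (ev t _).2.2.2]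
  have evc : ∀ (t : Fin 2 → ℤ) (a b c d : ℤ × ℤ),
      MvPolynomial.eval t (D4 (cst a) (cst b) (cst c) (mv d)) =
        D4 a b c (shift (t 0, t 1) d) := by
    intro t a b c d
    simp only [D4, map_add, map_pow, map_sub, map_mul, (ev t _).1, (ev t _).2.1,
      (ev t _).2.2.1, (ev t _).2.2.2]
  have evd : ∀ (t : Fin 2 → ℤ) (a b c d : ℤ × ℤ),
      MvPolynomial.eval t (D4 (cst a) (mv b) (mv c) (mv d)) =
        D4 a (shift (t 0, t 1) b) (shift (t 0, t 1) c) (shift (t 0, t 1) d) := by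
    intro t a b c d
    simp only [D4, map_add, map_pow, map_sub, map_mul, (ev t _).1, (ev t _).2.1,
      (ev t _).2.2.1, (ev t _).2.2.2]
  have eve : ∀ (t : Fin 2 → ℤ) (a b c d : ℤ × ℤ),
      MvPolynomial.eval t (D4 (cst a) (cst b) (mv c) (mv d)) =
        D4 a b (shift (t 0, t 1) c) (shift (t 0, t 1) d) := by
    intro t a b c d
    simp only [D4, map_add, map_pow, map_sub, map_mul, (ev t _).1, (ev t _).2.1,
      (ev t _).2.2.1, (ev t _).2.2.2]
  obtain ⟨t, ht⟩ := exists_common (sa ∪ sb ∪ sc ∪ sd ∪ se)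
    ((((fa.union fb).union fc).union fd).union fe) (by
    rintro F ((((hF | hF) | hF) | hF) | hF)
    · obtain ⟨⟨a, b, c⟩, hq, hne, rfl⟩ := hF
      obtain ⟨z, hz⟩ := exists_D3 a b hne
      obtain ⟨t, ht⟩ := ex (z.1 - c.1, z.2 - c.2)
      refine ⟨t, ?_⟩
      rw [eva, ht]
      have : shift (z.1 - c.1, z.2 - c.2) c = z := by
        simp only [shift]; exact Prod.ext (by ring) (by ring)
      rw [this]; exact hz
    · obtain ⟨⟨a, b, c⟩, hq, hne, rfl⟩ := hF
      obtain ⟨z, hz⟩ := exists_D3 b c hne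
      obtain ⟨t, ht⟩ := ex (a.1 - z.1, a.2 - z.2)
      refine ⟨t, ?_⟩
      rw [evb, ht]
      intro h0
      apply hz
      simp only [D3, shift] at h0 ⊢
      linear_combination h0
    · obtain ⟨⟨a, b, c, d⟩, hq, ⟨h1, h2, h3⟩, rfl⟩ := hF
      simp only [Finset.mem_product] at hq
      obtain ⟨z, hz⟩ := exists_D4_one a b c
        (hQ.1 a (mem_coe.2 hq.1) b (mem_coe.2 hq.2.1) c (mem_coe.2 hq.2.2.1) h1 h2 h3)
      obtain ⟨t, ht⟩ := ex (z.1 - d.1, z.2 - d.2)
      refine ⟨t, ?_⟩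
      rw [evc, ht]
      have : shift (z.1 - d.1, z.2 - d.2) d = z := by
        simp only [shift]; exact Prod.ext (by ring) (by ring)
      rw [this]; exact hz
    · obtain ⟨⟨a, b, c, d⟩, hq, ⟨h1, h2, h3⟩, rfl⟩ := hF
      simp only [Finset.mem_product] at hq
      obtain ⟨z, hz⟩ := exists_D4_one b c d
        (hP.1 b (mem_coe.2 hq.2.1) c (mem_coe.2 hq.2.2.1) d (mem_coe.2 hq.2.2.2) h1 h2 h3)
      obtain ⟨t, ht⟩ := ex (a.1 - z.1, a.2 - z.2)
      refine ⟨t, ?_⟩
      rw [evd, ht]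
      intro h0
      apply hz
      simp only [D4, shift] at h0 ⊢
      linear_combination (-1) * h0
    · obtain ⟨⟨a, b, c, d⟩, hq, ⟨h1, h2⟩, rfl⟩ := hF
      obtain ⟨v, hv⟩ := exists_D4_two a b c d h1 h2
      obtain ⟨t, ht⟩ := ex v
      refine ⟨t, ?_⟩
      rw [eve, ht]
      exact hv)
  refine ⟨(t 0, t 1), ?_⟩
  set v : ℤ × ℤ := (t 0, t 1) with hv
  have ha : ∀ a ∈ Q, ∀ b ∈ Q, ∀ c ∈ P, a ≠ b → D3 a b (shift v c) ≠ 0 := by
    intro a ha b hb c hc hne
    rw [hv, ← eva]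
    exact ht _ (Or.inl (Or.inl (Or.inl (Or.inl ⟨(a, b, c), by simp [ha, hb, hc], hne, rfl⟩))))
  have hb : ∀ a ∈ Q, ∀ b ∈ P, ∀ c ∈ P, b ≠ c → D3 a (shift v b) (shift v c) ≠ 0 := by
    intro a ha b hb c hc hne
    rw [hv, ← evb]
    exact ht _ (Or.inl (Or.inl (Or.inl (Or.inr ⟨(a, b, c), by simp [ha, hb, hc], hne, rfl⟩))))
  have hcc : ∀ a ∈ Q, ∀ b ∈ Q, ∀ c ∈ Q, ∀ d ∈ P, a ≠ b → a ≠ c → b ≠ c →
      D4 a b c (shift v d) ≠ 0 := by
    intro a ha b hb c hc d hd h1 h2 h3
    rw [hv, ← evc]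
    exact ht _ (Or.inl (Or.inl (Or.inr ⟨(a, b, c, d), by simp [ha, hb, hc, hd],
      ⟨h1, h2, h3⟩, rfl⟩)))
  have hd : ∀ a ∈ Q, ∀ b ∈ P, ∀ c ∈ P, ∀ d ∈ P, b ≠ c → b ≠ d → c ≠ d →
      D4 a (shift v b) (shift v c) (shift v d) ≠ 0 := by
    intro a ha b hb c hc d hd h1 h2 h3
    rw [hv, ← evd]
    exact ht _ (Or.inl (Or.inr ⟨(a, b, c, d), by simp [ha, hb, hc, hd],
      ⟨h1, h2, h3⟩, rfl⟩))
  have he : ∀ a ∈ Q, ∀ b ∈ Q, ∀ c ∈ P, ∀ d ∈ P, a ≠ b → c ≠ d →
      D4 a b (shift v c) (shift v d) ≠ 0 := by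
    intro a ha b hb c hc d hd h1 h2
    rw [hv, ← eve]
    exact ht _ (Or.inr ⟨(a, b, c, d), by simp [ha, hb, hc, hd],
      ⟨h1, h2⟩, rfl⟩)
  clear_value v
  have n12 : ∀ p q s u : ℤ × ℤ, D4 p q s u ≠ 0 → D4 q p s u ≠ 0 := by
    intro p q s u h; rw [D4_swap12]; exact neg_ne_zero.2 h
  have n23 : ∀ p q s u : ℤ × ℤ, D4 p q s u ≠ 0 → D4 p s q u ≠ 0 := by
    intro p q s u h; rw [D4_swap23]; exact neg_ne_zero.2 h
  have n34 : ∀ p q s u : ℤ × ℤ, D4 p q s u ≠ 0 → D4 p q u s ≠ 0 := by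
    intro p q s u h; rw [D4_swap34]; exact neg_ne_zero.2 h
  have m12 : ∀ p q s : ℤ × ℤ, D3 p q s ≠ 0 → D3 q p s ≠ 0 := by
    intro p q s h; rw [D3_swap12]; exact neg_ne_zero.2 h
  have m23 : ∀ p q s : ℤ × ℤ, D3 p q s ≠ 0 → D3 p s q ≠ 0 := by
    intro p q s h; rw [D3_swap23]; exact neg_ne_zero.2 h
  have mem : ∀ p : ℤ × ℤ, p ∈ (↑(Q ∪ P.image (shift v)) : Set (ℤ × ℤ)) →
      p ∈ Q ∨ ∃ p' ∈ P, shift v p' = p := by
    intro p hp
    rw [mem_coe, mem_union, mem_image] at hp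
    exact hp
  constructor
  · intro p hp0 q hq0 s hs0 hpq hps hqs
    rcases mem p hp0 with hp | ⟨p, hp, rfl⟩ <;> rcases mem q hq0 with hq | ⟨q, hq, rfl⟩ <;>
      rcases mem s hs0 with hs | ⟨s, hs, rfl⟩
    · exact hQ.1 p (mem_coe.2 hp) q (mem_coe.2 hq) s (mem_coe.2 hs) hpq hps hqs
    · exact ha p hp q hq s hs hpq
    · exact m23 _ _ _ (ha p hp s hs q hq hps)
    · exact hb p hp q hq s hs (fun h => hqs (by rw [h]))
    · exact m12 _ _ _ (m23 _ _ _ (ha q hq s hs p hp hqs))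
    · exact m12 _ _ _ (hb q hq p hp s hs (fun h => hps (by rw [h])))
    · exact m23 _ _ _ (m12 _ _ _ (hb s hs p hp q hq (fun h => hpq (by rw [h]))))
    · rw [D3_shift]
      exact hP.1 p (mem_coe.2 hp) q (mem_coe.2 hq) s (mem_coe.2 hs)
        (fun h => hpq (by rw [h])) (fun h => hps (by rw [h])) (fun h => hqs (by rw [h]))
  · intro p hp0 q hq0 s hs0 u hu0 hpq hps hpu hqs hqu hsu
    rcases mem p hp0 with hp | ⟨p, hp, rfl⟩ <;> rcases mem q hq0 with hq | ⟨q, hq, rfl⟩ <;>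
      rcases mem s hs0 with hs | ⟨s, hs, rfl⟩ <;> rcases mem u hu0 with hu | ⟨u, hu, rfl⟩
    · -- QQQQ
      exact hQ.2 p (mem_coe.2 hp) q (mem_coe.2 hq) s (mem_coe.2 hs) u (mem_coe.2 hu)
        hpq hps hpu hqs hqu hsu
    · -- QQQP
      exact hcc p hp q hq s hs u hu hpq hps hqs
    · -- QQPQ
      exact n34 _ _ _ _ (hcc p hp q hq u hu s hs hpq hpu hqu)
    · -- QQPP
      exact he p hp q hq s hs u hu hpq (fun h => hsu (by rw [h]))
    · -- QPQQ : p q s u ; q in P
      exact n23 _ _ _ _ (n34 _ _ _ _ (hcc p hp s hs u hu q hq hps hpu hsu))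
    · -- QPQP
      exact n23 _ _ _ _ (he p hp s hs q hq u hu hps (fun h => hqu (by rw [h])))
    · -- QPPQ : p, u in Q ; q, s in P ;  (p u q s) -> (p q u s) -> (p q s u)
      exact n34 _ _ _ _ (n23 _ _ _ _ (he p hp u hu q hq s hs hpu (fun h => hqs (by rw [h]))))
    · -- QPPP
      exact hd p hp q hq s hs u hu (fun h => hqs (by rw [h])) (fun h => hqu (by rw [h]))
        (fun h => hsu (by rw [h]))
    · -- PQQQ : (q s u p) -> (q s p u) -> (q p s u) -> (p q s u)
      exact n12 _ _ _ _ (n23 _ _ _ _ (n34 _ _ _ _ (hcc q hq s hs u hu p hp hqs hqu hsu)))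
    · -- PQQP : (q s p u) -> (q p s u) -> (p q s u)
      exact n12 _ _ _ _ (n23 _ _ _ _ (he q hq s hs p hp u hu hqs (fun h => hpu (by rw [h]))))
    · -- PQPQ : (q u p s) -> (q p u s) -> (p q u s) -> (p q s u)
      exact n34 _ _ _ _ (n12 _ _ _ _ (n23 _ _ _ _
        (he q hq u hu p hp s hs hqu (fun h => hps (by rw [h])))))
    · -- PQPP : (q p s u) -> (p q s u)
      exact n12 _ _ _ _ (hd q hq p hp s hs u hu (fun h => hps (by rw [h]))
        (fun h => hpu (by rw [h])) (fun h => hsu (by rw [h])))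
    · -- PPQQ : (s u p q) -> (s p u q) -> (p s u q) -> (p s q u) -> (p q s u)
      exact n23 _ _ _ _ (n34 _ _ _ _ (n12 _ _ _ _ (n23 _ _ _ _
        (he s hs u hu p hp q hq hsu (fun h => hpq (by rw [h]))))))
    · -- PPQP : (s p q u) -> (p s q u) -> (p q s u)
      exact n23 _ _ _ _ (n12 _ _ _ _ (hd s hs p hp q hq u hu (fun h => hpq (by rw [h]))
        (fun h => hpu (by rw [h])) (fun h => hqu (by rw [h]))))
    · -- PPPQ : (u p q s) -> (p u q s) -> (p q u s) -> (p q s u)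
      exact n34 _ _ _ _ (n23 _ _ _ _ (n12 _ _ _ _ (hd u hu p hp q hq s hs
        (fun h => hpq (by rw [h])) (fun h => hps (by rw [h])) (fun h => hqs (by rw [h])))))
    · -- PPPP
      rw [D4_shift]
      exact hP.2 p (mem_coe.2 hp) q (mem_coe.2 hq) s (mem_coe.2 hs) u (mem_coe.2 hu)
        (fun h => hpq (by rw [h])) (fun h => hps (by rw [h])) (fun h => hpu (by rw [h]))
        (fun h => hqs (by rw [h])) (fun h => hqu (by rw [h])) (fun h => hsu (by rw [h]))

lemma Bad_shift {k : ℕ} {P : Finset (ℤ × ℤ)} (h : Bad k (P : Set (ℤ × ℤ))) (v : ℤ × ℤ)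
    {A : Set (ℤ × ℤ)} (hA : ∀ p ∈ P, shift v p ∈ A) : Bad k A := by
  intro c
  obtain ⟨p, hp, q, hq, hpq, hc, n, hn⟩ := h (fun p => c (shift v p))
  refine ⟨shift v p, hA p (mem_coe.1 hp), shift v q, hA q (mem_coe.1 hq),
    fun h => hpq (shift_inj v h), hc, n, ?_⟩
  rw [← hn]
  simp only [shift]
  ring

/-- an infinite general position lattice set, bad for every number of colours -/
theorem exists_lattice_set
    (hpieces : ∀ k : ℕ, ∃ P : Finset (ℤ × ℤ), GP P ∧ Bad (k+1) P) :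
    ∃ A : Set (ℤ × ℤ), GP A ∧ ∀ k, Bad k A := by
  classical
  have step : ∀ (k : ℕ) (Q : {Q : Finset (ℤ × ℤ) // GP (Q : Set (ℤ × ℤ))}),
      ∃ Q' : {Q : Finset (ℤ × ℤ) // GP (Q : Set (ℤ × ℤ))}, Q.1 ⊆ Q'.1 ∧
        Bad (k+1) (Q'.1 : Set (ℤ × ℤ)) := by
    intro k Q
    obtain ⟨P, hP, hB⟩ := hpieces k
    obtain ⟨v, hv⟩ := union_step Q.1 P Q.2 hP
    refine ⟨⟨Q.1 ∪ P.image (shift v), hv⟩, subset_union_left, ?_⟩
    apply Bad_shift hB v
    intro p hp
    rw [mem_coe]
    exact mem_union_right _ (mem_image_of_mem _ hp)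
  choose f hf1 hf2 using step
  have h0 : GP ((∅ : Finset (ℤ × ℤ)) : Set (ℤ × ℤ)) := by
    constructor
    · intro p hp; exact absurd hp (by simp)
    · intro p hp; exact absurd hp (by simp)
  let seq : ℕ → {Q : Finset (ℤ × ℤ) // GP (Q : Set (ℤ × ℤ))} :=
    fun n => Nat.rec ⟨∅, h0⟩ (fun k Q => f k Q) n
  have hmono : Monotone (fun n => (seq n).1) := by
    apply monotone_nat_of_le_succ
    intro n
    exact hf1 n (seq n)
  refine ⟨⋃ n, ((seq n).1 : Set (ℤ × ℤ)), ⟨?_, ?_⟩, ?_⟩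
  · intro p hp q hq s hs
    rw [Set.mem_iUnion] at hp hq hs
    obtain ⟨a, ha⟩ := hp
    obtain ⟨b, hb⟩ := hq
    obtain ⟨c, hc⟩ := hs
    let N := max a (max b c)
    have e1 : p ∈ ((seq N).1 : Set (ℤ × ℤ)) := hmono (le_max_left _ _) ha
    have e2 : q ∈ ((seq N).1 : Set (ℤ × ℤ)) :=
      hmono (le_trans (le_max_left _ _) (le_max_right _ _)) hb
    have e3 : s ∈ ((seq N).1 : Set (ℤ × ℤ)) :=
      hmono (le_trans (le_max_right _ _) (le_max_right _ _)) hc
    exact (seq N).2.1 p e1 q e2 s e3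
  · intro p hp q hq s hs u hu
    rw [Set.mem_iUnion] at hp hq hs hu
    obtain ⟨a, ha⟩ := hp
    obtain ⟨b, hb⟩ := hq
    obtain ⟨c, hc⟩ := hs
    obtain ⟨d, hd⟩ := hu
    let N := max (max a b) (max c d)
    have e1 : p ∈ ((seq N).1 : Set (ℤ × ℤ)) :=
      hmono (le_trans (le_max_left _ _) (le_max_left _ _)) ha
    have e2 : q ∈ ((seq N).1 : Set (ℤ × ℤ)) :=
      hmono (le_trans (le_max_right _ _) (le_max_left _ _)) hb
    have e3 : s ∈ ((seq N).1 : Set (ℤ × ℤ)) :=
      hmono (le_trans (le_max_left _ _) (le_max_right _ _)) hc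
    have e4 : u ∈ ((seq N).1 : Set (ℤ × ℤ)) :=
      hmono (le_trans (le_max_right _ _) (le_max_right _ _)) hd
    exact (seq N).2.2 p e1 q e2 s e3 u e4
  · intro k c
    obtain ⟨p, hp, q, hq, hpq, hc, n⟩ := hf2 k (seq k) (fun x => (c x).castSucc)
    refine ⟨p, Set.mem_iUnion.2 ⟨k+1, hp⟩, q, Set.mem_iUnion.2 ⟨k+1, hq⟩, hpq, ?_, n⟩
    exact Fin.castSucc_injective _ hc

lemma coloring_nat_of_countable_nbrs {V : Type} (G : SimpleGraph V)
    (h : ∀ v, (G.neighborSet v).Countable) : Nonempty (G.Coloring ℕ) := by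
  have h1 : ∀ (v : V) (n : ℕ), {w | ∃ p : G.Walk v w, p.length = n}.Countable := by
    intro v n
    induction n with
    | zero =>
      apply (Set.countable_singleton v).mono
      rintro w ⟨p, hp⟩
      exact (SimpleGraph.Walk.eq_of_length_eq_zero hp).symm
    | succ n ih =>
      apply (ih.biUnion (fun u _ => h u)).mono
      rintro w ⟨p, hp⟩
      -- reverse, peel off the last edge
      have hr : p.reverse.length = n + 1 := by rw [SimpleGraph.Walk.length_reverse, hp]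
      generalize p.reverse = q at hr
      cases q with
      | nil => simp at hr
      | cons hadj q' =>
        rename_i u
        rw [Set.mem_iUnion₂]
        refine ⟨u, ⟨q'.reverse, ?_⟩, ?_⟩
        · rw [SimpleGraph.Walk.length_reverse]
          simpa using hr
        · rw [SimpleGraph.mem_neighborSet]
          exact hadj.symm
  have h2 : ∀ c : G.ConnectedComponent, {w | G.connectedComponentMk w = c}.Countable := by
    intro c
    induction c using SimpleGraph.ConnectedComponent.ind with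
    | _ v =>
      apply (Set.countable_iUnion (fun n => h1 v n)).mono
      intro w hw
      have hw' : G.Reachable v w := (SimpleGraph.ConnectedComponent.eq.1 hw).symm
      obtain ⟨p⟩ := hw'
      exact Set.mem_iUnion.2 ⟨p.length, p, rfl⟩
  have h3 : ∀ c : G.ConnectedComponent, ∃ f : V → ℕ,
      Set.InjOn f {w | G.connectedComponentMk w = c} := fun c =>
    Set.countable_iff_exists_injOn.1 (h2 c)
  choose f hf using h3
  refine ⟨SimpleGraph.Coloring.mk (fun v => f (G.connectedComponentMk v) v) ?_⟩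
  intro v w hvw heq
  have hc : G.connectedComponentMk v = G.connectedComponentMk w :=
    SimpleGraph.ConnectedComponent.sound hvw.reachable
  rw [← hc] at heq
  have := hf (G.connectedComponentMk v) (by rfl) (by exact hc.symm) heq
  exact hvw.ne this

/-- the Euclidean plane -/
abbrev Plane : Type := EuclideanSpace ℝ (Fin 2)

/-- `A` is infinite, no line contains three of its points and no circle contains four of its
points -/
def Admissible (A : Set Plane) : Prop :=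
  A.Infinite ∧
  (∀ x ∈ A, ∀ y ∈ A, ∀ z ∈ A, x ≠ y → x ≠ z → y ≠ z → ¬ Collinear ℝ ({x, y, z} : Set Plane)) ∧
  (∀ x ∈ A, ∀ y ∈ A, ∀ z ∈ A, ∀ w ∈ A, x ≠ y → x ≠ z → x ≠ w → y ≠ z → y ≠ w → z ≠ w →
    ¬ EuclideanGeometry.Cospherical ({x, y, z, w} : Set Plane))

/-- the graph on `A` whose edges are the pairs of distinct points at integer distance -/
def intDistGraph (A : Set Plane) : SimpleGraph A where
  Adj x y := x ≠ y ∧ ∃ n : ℤ, dist (x : Plane) (y : Plane) = n
  symm := ⟨fun _ _ h => ⟨h.1.symm, by rw [dist_comm]; exact h.2⟩⟩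
  loopless := ⟨fun _ h => h.1 rfl⟩

/-- the least cardinal `κ` such that the vertices can be split into `κ` independent classes -/
noncomputable def chromaticCardinal {V : Type} (G : SimpleGraph V) : Cardinal.{0} :=
  sInf {κ : Cardinal.{0} | ∃ C : Type, Cardinal.mk C = κ ∧ Nonempty (G.Coloring C)}

/-- for admissible sets every vertex has countably many neighbours, so countably many colours
suffice -/
lemma admissible_coloring_nat (A : Set Plane) (hA : Admissible A) :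
    Nonempty ((intDistGraph A).Coloring ℕ) := by
  apply coloring_nat_of_countable_nbrs
  intro v
  have h1 : ∀ n : ℤ, {w : A | dist (v : Plane) (w : Plane) = n}.Finite := by
    intro n
    by_contra hinf
    obtain ⟨t, ht, hcard⟩ := Set.Infinite.exists_subset_card_eq hinf 4
    rw [Finset.card_eq_succ] at hcard
    obtain ⟨a, t1, ha, rfl, hcard⟩ := hcard
    rw [Finset.card_eq_three] at hcard
    obtain ⟨b, c, d, hbc, hbd, hcd, rfl⟩ := hcard
    simp only [Finset.mem_insert, Finset.mem_singleton, not_or] at ha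
    obtain ⟨hab, hac, had⟩ := ha
    have hm : ∀ x ∈ ({a, b, c, d} : Finset A), dist (v : Plane) (x : Plane) = n :=
      fun x hx => ht (by simpa using hx)
    have ea := hm a (by simp)
    have eb := hm b (by simp)
    have ec := hm c (by simp)
    have ed := hm d (by simp)
    apply hA.2.2 a a.2 b b.2 c c.2 d d.2 (fun h => hab (Subtype.ext h))
      (fun h => hac (Subtype.ext h)) (fun h => had (Subtype.ext h))
      (fun h => hbc (Subtype.ext h)) (fun h => hbd (Subtype.ext h))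
      (fun h => hcd (Subtype.ext h))
    refine ⟨v, n, ?_⟩
    intro x hx
    simp only [Set.mem_insert_iff, Set.mem_singleton_iff] at hx
    rcases hx with rfl | rfl | rfl | rfl
    · rw [dist_comm]; exact ea
    · rw [dist_comm]; exact eb
    · rw [dist_comm]; exact ec
    · rw [dist_comm]; exact ed
  apply (Set.countable_iUnion (fun n : ℤ => (h1 n).countable)).mono
  intro w hw
  rw [SimpleGraph.mem_neighborSet] at hw
  obtain ⟨_, n, hn⟩ := hw
  exact Set.mem_iUnion.2 ⟨n, hn⟩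

/-- the lattice point as a point of the plane -/
noncomputable def toPlane (p : ℤ × ℤ) : Plane := !₂[(p.1 : ℝ), (p.2 : ℝ)]

lemma toPlane_zero (p : ℤ × ℤ) : toPlane p 0 = p.1 := by simp [toPlane]
lemma toPlane_one (p : ℤ × ℤ) : toPlane p 1 = p.2 := by simp [toPlane]

lemma toPlane_injective : Function.Injective toPlane := by
  intro p q h
  have h0 : toPlane p 0 = toPlane q 0 := by rw [h]
  have h1 : toPlane p 1 = toPlane q 1 := by rw [h]
  rw [toPlane_zero, toPlane_zero] at h0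
  rw [toPlane_one, toPlane_one] at h1
  exact Prod.ext (Int.cast_injective (α := ℝ) h0) (Int.cast_injective (α := ℝ) h1)

lemma D3_of_collinear (p q s : ℤ × ℤ)
    (h : Collinear ℝ ({toPlane p, toPlane q, toPlane s} : Set Plane)) : D3 p q s = 0 := by
  rw [collinear_iff_of_mem (p₀ := toPlane p) (by simp)] at h
  obtain ⟨v, hv⟩ := h
  obtain ⟨a, ha⟩ := hv (toPlane q) (by simp)
  obtain ⟨b, hb⟩ := hv (toPlane s) (by simp)
  have a0 : toPlane q 0 = a * v 0 + toPlane p 0 := by rw [ha]; simp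
  have a1 : toPlane q 1 = a * v 1 + toPlane p 1 := by rw [ha]; simp
  have b0 : toPlane s 0 = b * v 0 + toPlane p 0 := by rw [hb]; simp
  have b1 : toPlane s 1 = b * v 1 + toPlane p 1 := by rw [hb]; simp
  rw [toPlane_zero, toPlane_zero] at a0 b0
  rw [toPlane_one, toPlane_one] at a1 b1
  have : ((D3 p q s : ℤ) : ℝ) = 0 := by
    simp only [D3]
    push_cast
    rw [a0, a1, b0, b1]
    ring
  exact_mod_cast this

lemma dist_toPlane_sq (p : ℤ × ℤ) (z : Plane) :
    (dist (toPlane p) z)^2 = ((p.1:ℝ) - z 0)^2 + ((p.2:ℝ) - z 1)^2 := by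
  rw [EuclideanSpace.dist_eq, Real.sq_sqrt (by positivity)]
  simp [Fin.sum_univ_two, toPlane_zero, toPlane_one, Real.dist_eq, sq_abs]

lemma D4_of_cospherical (p q s u : ℤ × ℤ)
    (h : EuclideanGeometry.Cospherical ({toPlane p, toPlane q, toPlane s, toPlane u} : Set Plane)) :
    D4 p q s u = 0 := by
  obtain ⟨z, ρ, hz⟩ := h
  have e1 := dist_toPlane_sq p z
  have e2 := dist_toPlane_sq q z
  have e3 := dist_toPlane_sq s z
  have e4 := dist_toPlane_sq u z
  rw [hz _ (by simp)] at e1 e2 e3 e4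
  have : ((D4 p q s u : ℤ) : ℝ) = 0 := by
    simp only [D4]
    push_cast
    have f1 : ((p.1:ℝ)-u.1)^2 + ((p.2:ℝ)-u.2)^2 =
      2 * (((p.1:ℝ)-u.1) * (z 0 - u.1) + ((p.2:ℝ)-u.2) * (z 1 - u.2)) := by
      linear_combination e4 - e1
    have f2 : ((q.1:ℝ)-u.1)^2 + ((q.2:ℝ)-u.2)^2 =
      2 * (((q.1:ℝ)-u.1) * (z 0 - u.1) + ((q.2:ℝ)-u.2) * (z 1 - u.2)) := by
      linear_combination e4 - e2
    have f3 : ((s.1:ℝ)-u.1)^2 + ((s.2:ℝ)-u.2)^2 =
      2 * (((s.1:ℝ)-u.1) * (z 0 - u.1) + ((s.2:ℝ)-u.2) * (z 1 - u.2)) := by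
      linear_combination e4 - e3
    rw [f1, f2, f3]
    ring
  exact_mod_cast this

theorem lattice_to_plane (A : Set (ℤ × ℤ)) (hA : GP A) (hB : ∀ k, Bad k A) :
    Admissible (toPlane '' A) ∧ ∀ k, ¬ (intDistGraph (toPlane '' A)).Colorable k := by
  classical
  have hcol : ∀ k, ¬ (intDistGraph (toPlane '' A)).Colorable (k+1) := by
    rintro k ⟨C⟩
    obtain ⟨p, hp, q, hq, hpq, hc, n, hn⟩ := hB (k+1)
      (fun p => if h : p ∈ A then C ⟨toPlane p, ⟨p, h, rfl⟩⟩ else 0)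
    simp only [dif_pos hp, dif_pos hq] at hc
    refine C.valid (v := ⟨toPlane p, ⟨p, hp, rfl⟩⟩) (w := ⟨toPlane q, ⟨q, hq, rfl⟩⟩) ?_ hc
    refine ⟨fun h => hpq (toPlane_injective (congrArg Subtype.val h)), |n|, ?_⟩
    have h1 := dist_toPlane_sq p (toPlane q)
    rw [toPlane_zero, toPlane_one] at h1
    have h2 : (dist (toPlane p) (toPlane q))^2 = ((|n| : ℤ) : ℝ)^2 := by
      rw [h1]
      push_cast
      rw [sq_abs]
      exact_mod_cast hn
    have h3 : (0:ℝ) ≤ ((|n| : ℤ) : ℝ) := by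
      have := abs_nonneg n
      exact_mod_cast this
    exact (sq_eq_sq₀ dist_nonneg h3).1 h2
  have hcol' : ∀ k, ¬ (intDistGraph (toPlane '' A)).Colorable k :=
    fun k hk => hcol k (hk.mono (Nat.le_succ k))
  refine ⟨⟨?_, ?_, ?_⟩, hcol'⟩
  · intro hfin
    have : Finite (toPlane '' A : Set Plane) := hfin
    have : Fintype (toPlane '' A : Set Plane) := Fintype.ofFinite _
    exact hcol' _ (intDistGraph (toPlane '' A)).colorable_of_fintype
  · rintro x ⟨p, hp, rfl⟩ y ⟨q, hq, rfl⟩ z ⟨s, hs, rfl⟩ hxy hxz hyz hcol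
    exact hA.1 p hp q hq s hs (fun h => hxy (by rw [h])) (fun h => hxz (by rw [h]))
      (fun h => hyz (by rw [h])) (D3_of_collinear p q s hcol)
  · rintro x ⟨p, hp, rfl⟩ y ⟨q, hq, rfl⟩ z ⟨s, hs, rfl⟩ w ⟨u, hu, rfl⟩ hxy hxz hxw hyz hyw hzw hc
    exact hA.2 p hp q hq s hs u hu (fun h => hxy (by rw [h])) (fun h => hxz (by rw [h]))
      (fun h => hxw (by rw [h])) (fun h => hyz (by rw [h])) (fun h => hyw (by rw [h]))
      (fun h => hzw (by rw [h])) (D4_of_cospherical p q s u hc)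

/-- There is an admissible set whose integer-distance graph has infinite chromatic number, and
the supremum over all admissible sets of the chromatic number, as a cardinal, is `ℵ₀` and is
attained. -/
theorem result :
    (∃ A : Set Plane, Admissible A ∧ (intDistGraph A).chromaticNumber = ⊤) ∧
    IsGreatest {κ : Cardinal.{0} | ∃ A : Set Plane,
      Admissible A ∧ κ = chromaticCardinal (intDistGraph A)} Cardinal.aleph0 := by
  obtain ⟨A, hA, hB⟩ := exists_lattice_set (fun k => by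
    obtain ⟨r, M, S, hS, hc⟩ := core (k+1) (Nat.succ_pos k)
    exact finite_piece S hS hc)
  obtain ⟨hadm, hcol⟩ := lattice_to_plane A hA hB
  refine ⟨⟨toPlane '' A, hadm, ?_⟩, ⟨toPlane '' A, hadm, ?_⟩, ?_⟩
  · by_contra h
    obtain ⟨n, hn⟩ := SimpleGraph.chromaticNumber_ne_top_iff_exists.1 h
    exact hcol n hn
  · symm
    apply le_antisymm
    · exact csInf_le' ⟨ℕ, Cardinal.mk_nat, admissible_coloring_nat _ hadm⟩
    · refine le_csInf ?_ ?_
      · exact ⟨Cardinal.aleph0, ℕ, Cardinal.mk_nat, admissible_coloring_nat _ hadm⟩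
      rintro κ ⟨C, rfl, ⟨c⟩⟩
      by_contra hlt
      rw [not_le, Cardinal.lt_aleph0_iff_finite] at hlt
      have : Fintype C := Fintype.ofFinite C
      exact hcol _ c.colorable
  · rintro κ ⟨B, hB', rfl⟩
    exact csInf_le' ⟨ℕ, Cardinal.mk_nat, admissible_coloring_nat _ hB'⟩

end Pool.Agent.Results.MP_23196e_co.InfiniteChromatic
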